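import Pool.Agent.H.MP_b2838e_lc.Bas

/-!
# Borel colourings: definitions
-/

namespace Pool.Agent.DB

open Pool.Agent.DR

/-- The classes of the colouring of the partitions into `k` pieces are Borel sets. -/
def Bor (k : ℕ) {l : ℕ} (c : (ℕ → ℕ) → Fin l) : Prop :=
  ∀ j, MeasurableSet {y : ℕ → ℕ | KPart k y ∧ c y = j}

/-- `X` is a finite union of blocks and has no element below `M`. -/
def UB (R : ℕ → Finset ℕ) (M : ℕ) (X : Finset ℕ) : Prop :=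
  (∃ D : Finset ℕ, X = RU R D) ∧ ∀ n ∈ X, M ≤ n

/-- Dense sets `G s` of finite approximations and the approximations `U j` with the colour `j`. -/
structure BP {l : ℕ} (c : (ℕ → ℕ) → Fin l) (R : ℕ → Finset ℕ) (G : ℕ → Finset ℕ → ℕ → Prop)
    (U : Fin l → Finset ℕ → ℕ → Prop) : Prop where
  dns : ∀ s A m, A.Nonempty → UB R 0 A → (∀ n ∈ A, n < m) →
    ∃ X m', m ≤ m' ∧ UB R m X ∧ (∀ n ∈ X, n < m') ∧ G s (A ∪ X) m'
  gmo : ∀ s A m X m', m ≤ m' → (∀ n ∈ X, m ≤ n) → G s A m → G s (A ∪ X) m'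
  umo : ∀ j A m X m', m ≤ m' → (∀ n ∈ X, m ≤ n) → U j A m → U j (A ∪ X) m'
  dec : ∀ s A m, G s A m → ∃ j, U j A m
  lim : ∀ y j, KPart 2 y → (∀ n, y n = 1 → ∃ a, n ∈ R a ∧ ∀ m ∈ R a, y m = 1) →
    (∀ s, ∃ A m, (∀ n, n ∈ A ↔ n < m ∧ y n = 1) ∧ G s A m) →
    (∃ A m, (∀ n, n ∈ A ↔ n < m ∧ y n = 1) ∧ U j A m) → c y = j

end Pool.Agent.DB
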