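import Pool.Agent.H.MP_b2838e_lc.B.Bd

/-!
# Module Bp: the Baire property

Proof. Let `Φ : (ℕ → Bool) → (ℕ → ℕ)`, `Φ Z n = 1` if there is `a` with `n ∈ R a` and `Z a = true` and
`0` otherwise. It is continuous: `Φ Z n` depends on at most one value of `Z` (`Blk.eq`). The sets
`B j = {Z | KPart 2 (Φ Z) ∧ c (Φ Z) = j}` are Borel, so there are open sets `V j` with `B j =ᵇ V j`
(`MeasurableSet.residualEq_isOpen`). Let `O s` be open dense sets with
`(⋂ s, O s) ⊆ ⋂ j, {Z | Z ∈ B j ↔ Z ∈ V j}` (`mem_residual` and countability). Let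
`Cyl A m = {Z | ∀ n < m, (Φ Z n = 1 ↔ n ∈ A)}`, `U j A m := Cyl A m ⊆ V j` and
`G s A m := Cyl A m ⊆ O s ∧ ∃ j, U j A m`.

`gmo`, `umo`: `Cyl (A ∪ X) m' ⊆ Cyl A m`. `dec`: clear. `lim`: let `Z a = true` iff `∀ m ∈ R a, y m = 1`;
then `Φ Z = y` (the values of `y` are `0` and `1`), `Z ∈ Cyl A m` for `A = {n < m | y n = 1}`, so `Z` is in
all `O s` and in `V j`, and so in `B j`.

`dns`: `Cyl A m` is open and not empty (`A = RU R D`: take `Z a = true` iff `a ∈ D`). The union of the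
`V j` is dense in it, as otherwise there were a nonempty open subset of `Cyl A m` disjoint from all
`V j`; in it there is a point `Z` of `⋂ s, O s` (Baire: `dense_iInter_of_isOpen` or `residual`), which is
in no `B j`, but `Φ Z` is a partition with two pieces (`A` is not empty and its elements are positive).
So there are `Z ∈ Cyl A m ∩ O s ∩ V j` for some `j`, and `k` such that all `Z'` with `Z' a = Z a` for all
`a < k` are in `O s ∩ V j`. Increase `k` such that all `a` with an element of `R a` below `m` are `< k`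
(`Blk.le`: `k ≥ m`). Let `A' = RU R {a < k | Z a = true}`, `m' ≥ m` above all elements of `R a`, `a < k`,
and `X = A' \ A`. Then `A' = A ∪ X`: if `n ∈ A`, `n ∈ R a` with `Z a = true` (as `Z ∈ Cyl A m`), `a < k`. The
elements of `X` are `≥ m` and `X` is the union of the `R a` with `a < k`, `Z a = true`, `a ∉ D`. Every
`Z' ∈ Cyl A' m'` agrees with `Z` below `k` (the blocks are nonempty and disjoint).
-/

namespace Pool.Agent.DB

open Pool.Agent.DR

open Set Filter Topology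

/-- the partition with the piece given by the blocks `R a`, `Z a = true` -/
noncomputable def Bp_phi (R : ℕ → Finset ℕ) (Z : ℕ → Bool) (n : ℕ) : ℕ := by
  classical
  exact if ∃ a, n ∈ R a ∧ Z a = true then 1 else 0

theorem Bp_one {R : ℕ → Finset ℕ} {Z : ℕ → Bool} {n : ℕ} :
    Bp_phi R Z n = 1 ↔ ∃ a, n ∈ R a ∧ Z a = true := by
  unfold Bp_phi
  split_ifs with h
  · exact ⟨fun _ => h, fun _ => rfl⟩
  · exact ⟨fun h' => absurd h' (by norm_num), fun h' => absurd h' h⟩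

theorem Bp_zero {R : ℕ → Finset ℕ} {Z : ℕ → Bool} {n : ℕ}
    (h : ¬ ∃ a, n ∈ R a ∧ Z a = true) : Bp_phi R Z n = 0 := by
  unfold Bp_phi
  rw [if_neg h]

theorem Bp_lt {R : ℕ → Finset ℕ} {Z : ℕ → Bool} {n : ℕ} : Bp_phi R Z n < 2 := by
  unfold Bp_phi
  split_ifs <;> norm_num

theorem Bp_iff {R : ℕ → Finset ℕ} (hR : Blk R) {Z : ℕ → Bool} {n a : ℕ} (ha : n ∈ R a) :
    Bp_phi R Z n = 1 ↔ Z a = true := by
  rw [Bp_one]
  constructor
  · rintro ⟨b, hb, hZ⟩
    rw [hR.eq ha hb]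
    exact hZ
  · exact fun h => ⟨a, ha, h⟩

theorem Bp_cont {R : ℕ → Finset ℕ} (hR : Blk R) : Continuous (Bp_phi R) := by
  refine continuous_pi fun n => ?_
  by_cases h : ∃ a, n ∈ R a
  · obtain ⟨a, ha⟩ := h
    have h1 : (fun Z : ℕ → Bool => Bp_phi R Z n) =
        (fun b : Bool => if b = true then 1 else 0) ∘ (fun Z : ℕ → Bool => Z a) := by
      funext Z
      show Bp_phi R Z n = if Z a = true then 1 else 0
      split_ifs with h2
      · exact (Bp_iff hR ha).2 h2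
      · refine Bp_zero ?_
        rintro ⟨b, hb, hZ⟩
        rw [hR.eq ha hb] at h2
        exact h2 hZ
    rw [h1]
    exact continuous_of_discreteTopology.comp (continuous_apply a)
  · have h1 : (fun Z : ℕ → Bool => Bp_phi R Z n) = fun _ => 0 := by
      funext Z
      exact Bp_zero (fun ⟨a, ha, _⟩ => h ⟨a, ha⟩)
    rw [h1]
    exact continuous_const

/-- the points with the piece `A` below `m` -/
def Bp_cyl (R : ℕ → Finset ℕ) (A : Finset ℕ) (m : ℕ) : Set (ℕ → Bool) :=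
  {Z | ∀ n < m, (Bp_phi R Z n = 1 ↔ n ∈ A)}

theorem Bp_cyl_open {R : ℕ → Finset ℕ} (hR : Blk R) (A : Finset ℕ) (m : ℕ) :
    IsOpen (Bp_cyl R A m) := by
  have h1 : Bp_cyl R A m = Bp_phi R ⁻¹' (Set.pi (Set.Iio m) fun n => {v | v = 1 ↔ n ∈ A}) := by
    ext Z
    rfl
  rw [h1]
  exact (isOpen_set_pi (Set.finite_Iio m) fun n _ => isOpen_discrete _).preimage (Bp_cont hR)

theorem Bp_cyl_mono {R : ℕ → Finset ℕ} {A X : Finset ℕ} {m m' : ℕ} (hm : m ≤ m')
    (hX : ∀ n ∈ X, m ≤ n) : Bp_cyl R (A ∪ X) m' ⊆ Bp_cyl R A m := by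
  intro Z hZ n hn
  rw [hZ n (lt_of_lt_of_le hn hm), Finset.mem_union]
  exact ⟨fun h => h.resolve_right fun h' => absurd (hX n h') (by omega), Or.inl⟩

theorem Bp_part {R : ℕ → Finset ℕ} (h0 : ∀ i, ∀ n ∈ R i, 0 < n) {Z : ℕ → Bool}
    (h : ∃ n, Bp_phi R Z n = 1) : KPart 2 (Bp_phi R Z) := by
  have hz : Bp_phi R Z 0 = 0 :=
    Bp_zero (fun ⟨a, ha, _⟩ => lt_irrefl 0 (h0 a 0 ha))
  refine ⟨fun n i hi => ?_, fun n => Bp_lt, fun i hi => ?_⟩
  · have h1 : Bp_phi R Z n < 2 := Bp_lt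
    have h2 : Bp_phi R Z n = 1 := by omega
    have h3 : i = 0 := by omega
    obtain ⟨a, ha, -⟩ := Bp_one.1 h2
    exact ⟨0, h0 a n ha, by rw [h3, hz]⟩
  · rcases Nat.eq_zero_or_pos i with h1 | h1
    · exact ⟨0, by rw [h1, hz]⟩
    · have h2 : i = 1 := by omega
      rw [h2]
      exact h

/-- open sets and a dense sequence of open sets -/
theorem Bp_baire {l : ℕ} (B : Fin l → Set (ℕ → Bool)) (hB : ∀ j, MeasurableSet (B j)) :
    ∃ (V : Fin l → Set (ℕ → Bool)) (O : ℕ → Set (ℕ → Bool)), (∀ j, IsOpen (V j)) ∧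
      (∀ s, IsOpen (O s)) ∧ Dense (⋂ s, O s) ∧
      ∀ Z ∈ ⋂ s, O s, ∀ j, Z ∈ B j ↔ Z ∈ V j := by
  choose V hV hBV using fun j => (hB j).residualEq_isOpen
  have h1 : {Z | ∀ j, Z ∈ B j ↔ Z ∈ V j} ∈ residual (ℕ → Bool) := by
    have h2 : ∀ᶠ Z in residual (ℕ → Bool), ∀ j, (B j Z ↔ V j Z) := by
      rw [Filter.eventually_all]
      intro j
      filter_upwards [hBV j] with Z hZ
      exact iff_of_eq hZ
    exact h2
  obtain ⟨S, hSo, hSd, hSc, hS⟩ := mem_residual_iff.1 h1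
  obtain ⟨O, hO⟩ := (hSc.insert Set.univ).exists_eq_range (Set.insert_nonempty _ _)
  have hOo : ∀ s, IsOpen (O s) := by
    intro s
    have h3 : O s ∈ insert Set.univ S := by
      rw [hO]
      exact Set.mem_range_self s
    rcases h3 with h3 | h3
    · rw [h3]
      exact isOpen_univ
    · exact hSo _ h3
  have hOd : ∀ s, Dense (O s) := by
    intro s
    have h3 : O s ∈ insert Set.univ S := by
      rw [hO]
      exact Set.mem_range_self s
    rcases h3 with h3 | h3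
    · rw [h3]
      exact dense_univ
    · exact hSd _ h3
  refine ⟨V, O, hV, hOo, dense_iInter_of_isOpen_nat hOo hOd, fun Z hZ => ?_⟩
  refine hS ?_
  intro t ht
  have h3 : t ∈ Set.range O := by
    rw [← hO]
    exact Or.inr ht
  obtain ⟨s, rfl⟩ := h3
  exact Set.mem_iInter.1 hZ s

/-- a point of an open set and a bound for the coordinates which matter -/
theorem Bp_nhd {W : Set (ℕ → Bool)} (hW : IsOpen W) {Z : ℕ → Bool} (hZ : Z ∈ W) :
    ∃ k, ∀ Z' : ℕ → Bool, (∀ a < k, Z' a = Z a) → Z' ∈ W := by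
  obtain ⟨I, u, h1, h2⟩ := isOpen_pi_iff.1 hW Z hZ
  refine ⟨I.sup id + 1, fun Z' hZ' => h2 ?_⟩
  intro a ha
  rw [hZ' a (Nat.lt_succ_of_le (Finset.le_sup (f := id) ha))]
  exact (h1 a ha).2

theorem bp {l : ℕ} {c : (ℕ → ℕ) → Fin l} (hc : Bor 2 c) {R : ℕ → Finset ℕ} (hR : Blk R)
    (h0 : ∀ i, ∀ n ∈ R i, 0 < n) : ∃ G U, BP c R G U := by
  classical
  obtain ⟨V, O, hV, hO, hd, hBV⟩ := Bp_baire
    (fun j => Bp_phi R ⁻¹' {y : ℕ → ℕ | KPart 2 y ∧ c y = j})
    (fun j => (Bp_cont hR).measurable (hc j))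
  refine ⟨fun s A m => Bp_cyl R A m ⊆ O s ∧ ∃ j, Bp_cyl R A m ⊆ V j,
    fun j A m => Bp_cyl R A m ⊆ V j, ?_, ?_, ?_, ?_, ?_⟩
  · intro s A m hA hAD hAm
    obtain ⟨⟨D, hD⟩, -⟩ := hAD
    have hne : (Bp_cyl R A m).Nonempty := by
      refine ⟨fun a => decide (a ∈ D), fun n _ => ?_⟩
      rw [Bp_one, hD, mem_RU]
      constructor
      · rintro ⟨a, ha, h⟩
        exact ⟨a, of_decide_eq_true h, ha⟩
      · rintro ⟨a, h, ha⟩
        exact ⟨a, ha, decide_eq_true h⟩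
    obtain ⟨Z, hZ, hZO⟩ := hd.inter_open_nonempty _ (Bp_cyl_open hR A m) hne
    have hZone : ∀ n ∈ A, Bp_phi R Z n = 1 := fun n hn => (hZ n (hAm n hn)).2 hn
    have hpart : KPart 2 (Bp_phi R Z) := by
      obtain ⟨n, hn⟩ := hA
      exact Bp_part h0 ⟨n, hZone n hn⟩
    have hZV : Z ∈ V (c (Bp_phi R Z)) := (hBV Z hZO _).1 ⟨hpart, rfl⟩
    have hZs : Z ∈ O s := Set.mem_iInter.1 hZO s
    obtain ⟨k₀, hk₀⟩ := Bp_nhd ((hO s).inter (hV (c (Bp_phi R Z)))) ⟨hZs, hZV⟩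
    obtain ⟨k, hk⟩ : ∃ k, k = max k₀ m := ⟨_, rfl⟩
    have hk1 : k₀ ≤ k := by rw [hk]; exact le_max_left _ _
    have hk2 : m ≤ k := by rw [hk]; exact le_max_right _ _
    have hmemA' : ∀ n, n ∈ RU R ((Finset.range k).filter fun a => Z a = true) ↔
        ∃ a, a < k ∧ Z a = true ∧ n ∈ R a := by
      intro n
      rw [mem_RU]
      constructor
      · rintro ⟨a, ha, hn⟩
        rw [Finset.mem_filter, Finset.mem_range] at ha
        exact ⟨a, ha.1, ha.2, hn⟩
      · rintro ⟨a, h1, h2, h3⟩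
        exact ⟨a, by rw [Finset.mem_filter, Finset.mem_range]; exact ⟨h1, h2⟩, h3⟩
    have hsub : A ⊆ RU R ((Finset.range k).filter fun a => Z a = true) := by
      intro n hn
      obtain ⟨a, ha, hZa⟩ := Bp_one.1 (hZone n hn)
      have h1 := hR.le a n ha
      have h2 := hAm n hn
      exact (hmemA' n).2 ⟨a, by omega, hZa, ha⟩
    have hge : ∀ n ∈ RU R ((Finset.range k).filter fun a => Z a = true) \ A, m ≤ n := by
      intro n hn
      rw [Finset.mem_sdiff] at hn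
      by_contra hlt
      push Not at hlt
      obtain ⟨a, -, hZa, ha⟩ := (hmemA' n).1 hn.1
      exact hn.2 ((hZ n hlt).1 (Bp_one.2 ⟨a, ha, hZa⟩))
    obtain ⟨m', hm'⟩ : ∃ m', m' = max m (((Finset.range k).biUnion R).sup id + 1) := ⟨_, rfl⟩
    have hm1 : m ≤ m' := by rw [hm']; exact le_max_left _ _
    have hm2 : ∀ a < k, ∀ n ∈ R a, n < m' := by
      intro a ha n hn
      have h1 : n ≤ ((Finset.range k).biUnion R).sup id :=
        Finset.le_sup (f := id) (Finset.mem_biUnion.2 ⟨a, Finset.mem_range.2 ha, hn⟩)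
      rw [hm']
      exact lt_of_lt_of_le (Nat.lt_succ_of_le h1) (le_max_right _ _)
    have hun : A ∪ (RU R ((Finset.range k).filter fun a => Z a = true) \ A) =
        RU R ((Finset.range k).filter fun a => Z a = true) :=
      Finset.union_sdiff_of_subset hsub
    have hcyl : ∀ Z' ∈ Bp_cyl R (RU R ((Finset.range k).filter fun a => Z a = true)) m',
        Z' ∈ O s ∩ V (c (Bp_phi R Z)) := by
      intro Z' hZ'
      refine hk₀ Z' fun a ha => ?_
      have hak : a < k := lt_of_lt_of_le ha hk1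
      obtain ⟨n, hn⟩ := hR.1 a
      have h1 := hZ' n (hm2 a hak n hn)
      rw [Bp_iff hR hn, hmemA' n] at h1
      rw [Bool.eq_iff_iff, h1]
      constructor
      · rintro ⟨b, -, h2, h3⟩
        rw [hR.eq hn h3]
        exact h2
      · exact fun h2 => ⟨a, hak, h2, hn⟩
    refine ⟨RU R ((Finset.range k).filter fun a => Z a = true) \ A, m', hm1, ⟨⟨(Finset.range k).filter
      (fun a => Z a = true ∧ a ∉ D), ?_⟩, hge⟩, ?_, ?_, ?_⟩
    · ext n
      rw [Finset.mem_sdiff, hmemA' n, mem_RU]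
      constructor
      · rintro ⟨⟨a, h1, h2, h3⟩, h4⟩
        refine ⟨a, ?_, h3⟩
        rw [Finset.mem_filter, Finset.mem_range]
        refine ⟨h1, h2, fun h5 => h4 ?_⟩
        rw [hD, mem_RU]
        exact ⟨a, h5, h3⟩
      · rintro ⟨a, ha, h3⟩
        rw [Finset.mem_filter, Finset.mem_range] at ha
        refine ⟨⟨a, ha.1, ha.2.1, h3⟩, fun h4 => ha.2.2 ?_⟩
        rw [hD, mem_RU] at h4
        obtain ⟨b, h5, h6⟩ := h4
        rw [hR.eq h3 h6]
        exact h5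
    · intro n hn
      rw [Finset.mem_sdiff, hmemA' n] at hn
      obtain ⟨⟨a, h1, -, h3⟩, -⟩ := hn
      exact hm2 a h1 n h3
    · rw [hun]
      exact fun Z' hZ' => (hcyl Z' hZ').1
    · rw [hun]
      exact ⟨_, fun Z' hZ' => (hcyl Z' hZ').2⟩
  · rintro s A m X m' hm hX ⟨h1, j, h2⟩
    exact ⟨(Bp_cyl_mono hm hX).trans h1, j, (Bp_cyl_mono hm hX).trans h2⟩
  · intro j A m X m' hm hX h1
    exact (Bp_cyl_mono hm hX).trans h1
  · rintro s A m ⟨-, h⟩
    exact h
  · intro y j hy hb hs hj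
    obtain ⟨Z, hZ⟩ : ∃ Z : ℕ → Bool, ∀ a, Z a = true ↔ ∀ m ∈ R a, y m = 1 :=
      ⟨fun a => decide (∀ m ∈ R a, y m = 1), fun a => decide_eq_true_iff⟩
    have hone : ∀ n, Bp_phi R Z n = 1 ↔ y n = 1 := by
      intro n
      rw [Bp_one]
      constructor
      · rintro ⟨a, ha, h1⟩
        exact (hZ a).1 h1 n ha
      · intro h1
        obtain ⟨a, ha, h2⟩ := hb n h1
        exact ⟨a, ha, (hZ a).2 h2⟩
    have hyZ : Bp_phi R Z = y := by
      funext n
      have h1 : Bp_phi R Z n < 2 := Bp_lt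
      have h2 := hy.2.1 n
      have h3 := hone n
      omega
    have hcyl : ∀ A m, (∀ n, n ∈ A ↔ n < m ∧ y n = 1) → Z ∈ Bp_cyl R A m := by
      intro A m hA n hn
      rw [hone n, hA n]
      exact ⟨fun h => ⟨hn, h⟩, fun h => h.2⟩
    have hZO : Z ∈ ⋂ s, O s := by
      rw [Set.mem_iInter]
      intro s
      obtain ⟨A, m, hA, h1, -⟩ := hs s
      exact h1 (hcyl A m hA)
    obtain ⟨A, m, hA, h1⟩ := hj
    have h2 := (hBV Z hZO j).2 (h1 (hcyl A m hA))
    have h3 : c (Bp_phi R Z) = j := h2.2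
    rw [hyZ] at h3
    exact h3

end Pool.Agent.DB
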