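import Pool.Agent.H.MP_b2838e_lc.B.Lm
import Pool.Agent.H.MP_b2838e_lc.Three

/-!
# Module Cmp: three pieces are not reducible to two
-/

namespace Pool.Agent.DB

open Pool.Agent.DR

theorem pre_take (x : ℕ → ℕ) {k m : ℕ} (h : k ≤ m) : (pre x m).take k = pre x k := by
  unfold pre
  rw [← List.map_take, List.take_range, min_eq_left h]

theorem pre_length (x : ℕ → ℕ) (m : ℕ) : (pre x m).length = m := by
  unfold pre
  rw [List.length_map, List.length_range]

/-- The number `v` is the first argument with the value `t + 2` of the function given by the functional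
`G` on the initial segments of `σ`. -/
def Fst (G : List ℕ → ℕ → Option ℕ) (σ : List ℕ) (t v : ℕ) : Prop :=
  ∃ y : ℕ → ℕ, (∀ i ≤ v, ∃ k ≤ σ.length, G (σ.take k) i = some (y i) ∧
    ∀ k' < k, G (σ.take k') i = none) ∧ y v = t + 2 ∧ ∀ i < v, y i ≠ t + 2

open Classical in
/-- The functional which looks for the first argument with the value `t + 2`. -/
noncomputable def srch (G : List ℕ → ℕ → Option ℕ) (σ : List ℕ) (t : ℕ) : Option ℕ :=
  if h : ∃ v, Fst G σ t v then some h.choose else none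

theorem srch_val {G : List ℕ → ℕ → Option ℕ} {x z : ℕ → ℕ} (hz : ∀ n, Val G x n (z n)) {t v : ℕ}
    (hv : z v = t + 2) (hv' : ∀ n < v, z n ≠ t + 2) : Val (srch G) x t v := by
  classical
  -- on every initial segment the only possible answer is `v`
  have huniq : ∀ m w, Fst G (pre x m) t w → w = v := by
    rintro m w ⟨y, h1, h2, h3⟩
    have hy : ∀ i ≤ w, y i = z i := by
      intro i hi
      obtain ⟨k, hk, h4, h5⟩ := h1 i hi
      rw [pre_length] at hk
      obtain ⟨n, h6, h7⟩ := hz i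
      rw [pre_take x hk] at h4
      have h5' : ∀ k' < k, G (pre x k') i = none := fun k' hk' => by
        have := h5 k' hk'
        rwa [pre_take x (hk'.le.trans hk)] at this
      exact FV_unique (G := G) (x := x) (t := i) ⟨h4, h5'⟩ ⟨h6, h7⟩
    rcases lt_trichotomy w v with h | h | h
    · exact absurd (by rw [← hy w le_rfl, h2]) (hv' w h)
    · exact h
    · exact absurd (by rw [hy v h.le, hv]) (h3 v h)
  have hex : ∃ m, Fst G (pre x m) t v := by
    choose n h1 h2 using hz
    refine ⟨∑ i ∈ Finset.range (v + 1), n i, z, fun i hi => ?_, hv, hv'⟩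
    have h3 : n i ≤ ∑ i ∈ Finset.range (v + 1), n i :=
      Finset.single_le_sum (f := n) (fun _ _ => Nat.zero_le _) (Finset.mem_range.2 (by omega))
    refine ⟨n i, by rw [pre_length]; exact h3, ?_, fun k' hk' => ?_⟩
    · rw [pre_take x h3]
      exact h1 i
    · rw [pre_take x (hk'.le.trans h3)]
      exact h2 i k' hk'
  refine ⟨Nat.find hex, ?_, fun m hm => ?_⟩
  · have h1 : ∃ w, Fst G (pre x (Nat.find hex)) t w := ⟨v, Nat.find_spec hex⟩
    unfold srch
    rw [dif_pos h1, huniq _ _ h1.choose_spec]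
  · unfold srch
    rw [dif_neg]
    rintro ⟨w, hw⟩
    have h1 := huniq m w hw
    subst h1
    exact Nat.find_min hex hm hw

/-- Two pieces, Borel colourings: the homogeneous partition computes no function which dominates `g` and
no partition which is homogeneous for the colourings `d k`, `k ≥ 3`. -/
theorem twoC (F : ℕ → List ℕ → ℕ → Option ℕ) : ∃ (g : ℕ → ℕ) (d : ℕ → (ℕ → ℕ) → Fin 2),
    (∀ k ≥ 3, Cont k (d k)) ∧ ∀ (l : ℕ) (c : (ℕ → ℕ) → Fin l), Bor 2 c → ∃ x j, Homog 2 c x j ∧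
      ∀ e, (¬ ∃ h : ℕ → ℕ, (∀ t, Val (F e) x t (h t)) ∧ ∃ t0, ∀ t ≥ t0, g t ≤ h t) ∧
        ∀ k ≥ 3, ¬ ∃ z i, (∀ n, Val (F e) x n (z n)) ∧ Homog k (d k) z i := by
  classical
  obtain ⟨g, hg⟩ := twoB (fun e => if e % 2 = 0 then F (e / 2) else srch (F (e / 2)))
  have hd : ∀ k, ∃ d : (ℕ → ℕ) → Fin 2, k ≥ 3 → Cont k d ∧
      ∀ x j, Homog k d x j → ∀ i n, x n = i + 2 → g i < n := by
    intro k
    by_cases hk : k ≥ 3
    · obtain ⟨d, h1, h2⟩ := three k hk g
      exact ⟨d, fun _ => ⟨h1, h2⟩⟩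
    · exact ⟨fun _ => 0, fun h => absurd h hk⟩
  choose d hd using hd
  refine ⟨g, d, fun k hk => (hd k hk).1, fun l c hc => ?_⟩
  obtain ⟨x, j, hx, hF⟩ := hg l c hc
  refine ⟨x, j, hx, fun e => ⟨?_, fun k hk => ?_⟩⟩
  · have h1 := hF (2 * e)
    have e1 : 2 * e % 2 = 0 := by omega
    have e2 : 2 * e / 2 = e := by omega
    simp only [e1, e2, if_true] at h1
    exact h1
  · rintro ⟨z, i, hz, hH⟩
    have h1 := hF (2 * e + 1)
    have e1 : ¬ (2 * e + 1) % 2 = 0 := by omega
    have e2 : (2 * e + 1) / 2 = e := by omega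
    simp only [e1, e2, if_false] at h1
    have hex : ∀ t, ∃ n, z n = t + 2 := fun t => hH.1.2 (t + 2)
    refine h1 ⟨fun t => Nat.find (hex t), fun t => ?_, 0, fun t _ => ?_⟩
    · exact srch_val hz (Nat.find_spec (hex t)) fun n hn => Nat.find_min (hex t) hn
    · exact ((hd k hk).2 z i hH t _ (Nat.find_spec (hex t))).le

end Pool.Agent.DB
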