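import Pool.Agent.H.MP_b2838e_lc.Hin
import Pool.Agent.H.MP_b2838e_lc.Cpt

/-!
# Module Dch: the dichotomy with a general predicate

Proof: adapt `Bnd.lean` and `Dich.lean` of the folder above (read them first), with `W j q B` in the place
of `∃ n v, v ≤ B ∧ FV ..`. If there is `K` such that for every `f` (with labels in `P`) there are `j ∈ P`, `q`
with indices in `[N, K)`, `Mono f j q` and `∃ B, W j q B`, then there is one `B` for all `f` (as in `bound`: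
the labelling matters only on the subsets of `range K`; `hW` is used to increase `B`). Otherwise choose bad
`g K`, `cpt g`, `hind f N`, as in `dich`.
-/

namespace Pool.Agent.DB

open Pool.Agent.DR

private theorem Dch_un {E : ℕ → Finset ℕ} {q : List (Finset ℕ)} {V : Finset ℕ}
    (hV : IsUn (q.map (RU E)) V) : ∃ S : Finset ℕ, S.Nonempty ∧ RU E S = V := by
  classical
  obtain ⟨h1, h2, h3⟩ := hV
  let S : Finset ℕ := (q.toFinset.biUnion id).filter fun i => E i ⊆ V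
  have hS : RU E S = V := by
    ext v
    rw [mem_RU]
    constructor
    · rintro ⟨i, hi, hv⟩
      exact (Finset.mem_filter.1 hi).2 hv
    · intro hv
      obtain ⟨D', hD', hvD⟩ := h2 v hv
      obtain ⟨D, hD, rfl⟩ := List.mem_map.1 hD'
      obtain ⟨i, hi, hvi⟩ := mem_RU.1 hvD
      refine ⟨i, Finset.mem_filter.2 ⟨?_, fun b hb => ?_⟩, hvi⟩
      · exact Finset.mem_biUnion.2 ⟨D, List.mem_toFinset.2 hD, hi⟩
      · exact h3 _ hD' v hvD b (mem_RU.2 ⟨i, hi, hb⟩) hv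
  refine ⟨S, ?_, hS⟩
  obtain ⟨v, hv⟩ := h1
  rw [← hS, mem_RU] at hv
  obtain ⟨i, hi, -⟩ := hv
  exact ⟨i, hi⟩

private theorem Dch_bound {l : ℕ} {P : Finset (Fin l)} {N : ℕ}
    {W : Fin l → List (Finset ℕ) → ℕ → Prop} (hW : ∀ j q B B', B ≤ B' → W j q B → W j q B')
    {K : ℕ}
    (h : ∀ f : Finset ℕ → Fin l, (∀ D : Finset ℕ, D.Nonempty → (∀ a ∈ D, N ≤ a) → f D ∈ P) →
      ∃ j ∈ P, ∃ q, Fam q ∧ (∀ D ∈ q, ∀ a ∈ D, N ≤ a ∧ a < K) ∧ Mono f j q ∧ ∃ B, W j q B) :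
    ∃ B, ∀ f : Finset ℕ → Fin l, (∀ D : Finset ℕ, D.Nonempty → (∀ a ∈ D, N ≤ a) → f D ∈ P) →
      ∃ j ∈ P, ∃ q, Fam q ∧ (∀ D ∈ q, ∀ a ∈ D, N ≤ a ∧ a < K) ∧ Mono f j q ∧ W j q B := by
  classical
  rcases P.eq_empty_or_nonempty with hP | ⟨j0, hj0⟩
  · refine ⟨0, fun f hf => ?_⟩
    have h1 := hf {N} (Finset.singleton_nonempty N)
      (fun a ha => (Finset.mem_singleton.1 ha).ge)
    rw [hP] at h1
    exact absurd h1 (Finset.notMem_empty _)
  · let ex : ({D : Finset ℕ // D ∈ (Finset.range K).powerset} → Fin l) → Finset ℕ → Fin l :=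
      fun g D => if hD : D ∈ (Finset.range K).powerset then g ⟨D, hD⟩ else j0
    have key : ∀ g : ({D : Finset ℕ // D ∈ (Finset.range K).powerset} → Fin l), ∃ v : ℕ,
        (∀ D : Finset ℕ, D.Nonempty → (∀ a ∈ D, N ≤ a) → ex g D ∈ P) →
          ∃ j ∈ P, ∃ q, Fam q ∧ (∀ D ∈ q, ∀ a ∈ D, N ≤ a ∧ a < K) ∧ Mono (ex g) j q ∧
            W j q v := by
      intro g
      by_cases hg : ∀ D : Finset ℕ, D.Nonempty → (∀ a ∈ D, N ≤ a) → ex g D ∈ P
      · obtain ⟨j, hj, q, hq, hqK, hm, v, hv⟩ := h (ex g) hg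
        exact ⟨v, fun _ => ⟨j, hj, q, hq, hqK, hm, hv⟩⟩
      · exact ⟨0, fun h1 => absurd h1 hg⟩
    choose v hv using key
    obtain ⟨B, hB⟩ := (Set.finite_range v).bddAbove
    refine ⟨B, fun f hf => ?_⟩
    have h1 : ∀ D : Finset ℕ, D.Nonempty → (∀ a ∈ D, N ≤ a) →
        ex (fun D => f D.1) D ∈ P := by
      intro D hD hN
      by_cases hK : D ∈ (Finset.range K).powerset
      · simp only [ex, dif_pos hK]
        exact hf D hD hN
      · simp only [ex, dif_neg hK]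
        exact hj0
    obtain ⟨j, hj, q, hq, hqK, hm, hn⟩ := hv (fun D => f D.1) h1
    refine ⟨j, hj, q, hq, hqK, fun V hV => ?_,
      hW _ _ _ _ (hB (Set.mem_range_self _)) hn⟩
    have h2 := hm V hV
    have h3 : V ∈ (Finset.range K).powerset := by
      rw [Finset.mem_powerset]
      intro a ha
      obtain ⟨D, hD, haD⟩ := hV.2.1 a ha
      exact Finset.mem_range.2 (hqK D hD a haD).2
    simpa only [ex, dif_pos h3] using h2

theorem dchA {l : ℕ} (P : Finset (Fin l)) (N : ℕ) (W : Fin l → List (Finset ℕ) → ℕ → Prop)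
    (hW : ∀ j q B B', B ≤ B' → W j q B → W j q B') :
    (∃ K B, ∀ f : Finset ℕ → Fin l, (∀ D : Finset ℕ, D.Nonempty → (∀ a ∈ D, N ≤ a) → f D ∈ P) →
      ∃ j ∈ P, ∃ q, Fam q ∧ (∀ D ∈ q, ∀ a ∈ D, N ≤ a ∧ a < K) ∧ Mono f j q ∧ W j q B) ∨
    ∃ E, Blk E ∧ (∀ i, ∀ a ∈ E i, N ≤ a) ∧
      ∃ j ∈ P, ∀ q, Fam q → ∀ B, ¬ W j (q.map (RU E)) B := by
  classical
  by_cases h : ∃ K, ∀ f : Finset ℕ → Fin l,
      (∀ D : Finset ℕ, D.Nonempty → (∀ a ∈ D, N ≤ a) → f D ∈ P) →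
      ∃ j ∈ P, ∃ q, Fam q ∧ (∀ D ∈ q, ∀ a ∈ D, N ≤ a ∧ a < K) ∧ Mono f j q ∧
        ∃ B, W j q B
  · obtain ⟨K, hK⟩ := h
    exact Or.inl ⟨K, Dch_bound hW hK⟩
  · right
    push Not at h
    choose g hg1 hg2 using h
    obtain ⟨f, hf⟩ := cpt g
    have hfP : ∀ D : Finset ℕ, D.Nonempty → (∀ a ∈ D, N ≤ a) → f D ∈ P := by
      intro D hD hN
      obtain ⟨K, -, hK⟩ := hf {D} 0
      rw [← hK D (Finset.mem_singleton_self D)]
      exact hg1 K D hD hN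
    obtain ⟨E, hE, hN, j, hj⟩ := hind f N
    have hjP : j ∈ P := by
      rw [← hj {0} (Finset.singleton_nonempty 0)]
      obtain ⟨k, hk⟩ := hE.1 0
      refine hfP _ ⟨k, mem_RU.2 ⟨0, Finset.mem_singleton_self 0, hk⟩⟩ fun a ha => ?_
      obtain ⟨i, -, ha'⟩ := mem_RU.1 ha
      exact hN i a ha'
    refine ⟨E, hE, hN, j, hjP, fun q hq B hB => ?_⟩
    let U : Finset ℕ := (q.map (RU E)).toFinset.biUnion id
    have hU : ∀ D ∈ q.map (RU E), ∀ a ∈ D, a ∈ U := fun D hD a ha =>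
      Finset.mem_biUnion.2 ⟨D, List.mem_toFinset.2 hD, ha⟩
    obtain ⟨K, hK, hgK⟩ := hf U.powerset (U.sup id + 1)
    refine hg2 K j hjP (q.map (RU E)) (hq.map hE) ?_ ?_ B hB
    · intro D hD a ha
      have h1 : a ≤ U.sup id := Finset.le_sup (f := id) (hU D hD a ha)
      refine ⟨?_, by omega⟩
      obtain ⟨A, -, rfl⟩ := List.mem_map.1 hD
      obtain ⟨i, -, ha'⟩ := mem_RU.1 ha
      exact hN i a ha'
    · intro V hV
      have h1 : V ⊆ U := fun a ha => by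
        obtain ⟨D, hD, haD⟩ := hV.2.1 a ha
        exact hU D hD a haD
      rw [hgK V (Finset.mem_powerset.2 h1)]
      obtain ⟨S, hS, hSV⟩ := Dch_un hV
      rw [← hSV]
      exact hj S hS

end Pool.Agent.DB
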