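import Pool.Agent.H.MP_b2838e_lc.B.Tw

/-!
# Module Fm: lists with additional elements

`fam_fill`: the pieces of `p'` are the pieces of `p` with additional elements `≥ M`; as all elements of the
pieces of `p` are below `M`, the least elements and the disjointness are preserved.
(`List.pairwise_iff_getElem`, `List.getD_eq_getElem`; do it for all `i < i' < p'.length`.)

`wd_agree`: below `M` the lists have the same members: for `n < M` the index
`p'.findIdx? (fun q => decide (n ∈ q))` is that of `p` (split `p' = p'.take p.length ++ p'.drop p.length`, or use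
`List.findIdx?_eq_some_iff_getElem` and `List.findIdx?_eq_none_iff`).
-/

namespace Pool.Agent.DB

open Pool.Agent.DR

theorem fam_fill {p p' : List (Finset ℕ)} (hp : Fam p) (hl : p'.length = p.length) {M : ℕ}
    (hM : ∀ x ∈ p, ∀ n ∈ x, n < M) (X : ℕ → Finset ℕ)
    (hX : ∀ i < p.length, p'.getD i ∅ = p.getD i ∅ ∪ X i)
    (hXM : ∀ i < p.length, ∀ n ∈ X i, M ≤ n)
    (hd : ∀ i < p.length, ∀ i' < p.length, i ≠ i' → Disjoint (X i) (X i')) : Fam p' := by
  have hg : ∀ (i : ℕ) (hi : i < p'.length) (hi' : i < p.length), p'[i] = p[i] ∪ X i := by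
    intro i hi hi'
    have h1 := hX i hi'
    rw [List.getD_eq_getElem _ _ hi, List.getD_eq_getElem _ _ hi'] at h1
    exact h1
  refine ⟨fun D hD => ?_, ?_⟩
  · obtain ⟨i, hi, rfl⟩ := List.mem_iff_getElem.1 hD
    have hi' : i < p.length := hl ▸ hi
    obtain ⟨a, ha⟩ := hp.1 p[i] (List.getElem_mem hi')
    rw [hg i hi hi']
    exact ⟨a, Finset.mem_union_left _ ha⟩
  · rw [List.pairwise_iff_getElem]
    intro i k hi hk hik
    have hi' : i < p.length := hl ▸ hi
    have hk' : k < p.length := hl ▸ hk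
    obtain ⟨h1, a, ha, h2⟩ := List.pairwise_iff_getElem.1 hp.2 i k hi' hk' hik
    have hMi : ∀ n ∈ p[i], n < M := hM _ (List.getElem_mem hi')
    have hMk : ∀ n ∈ p[k], n < M := hM _ (List.getElem_mem hk')
    rw [hg i hi hi', hg k hk hk']
    refine ⟨?_, a, Finset.mem_union_left _ ha, fun b hb => ?_⟩
    · rw [Finset.disjoint_left]
      intro n hn hn'
      rcases Finset.mem_union.1 hn with h3 | h3 <;> rcases Finset.mem_union.1 hn' with h4 | h4
      · exact (Finset.disjoint_left.1 h1) h3 h4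
      · exact absurd (hMi n h3) (not_lt.2 (hXM k hk' n h4))
      · exact absurd (hMk n h4) (not_lt.2 (hXM i hi' n h3))
      · exact (Finset.disjoint_left.1 (hd i hi' k hk' hik.ne)) h3 h4
    · rcases Finset.mem_union.1 hb with h3 | h3
      · exact h2 b h3
      · exact (hMi a ha).trans_le (hXM k hk' b h3)

theorem wd_agree {p p' : List (Finset ℕ)} {M : ℕ} (hl : p.length ≤ p'.length)
    (h1 : ∀ i < p.length, ∃ X : Finset ℕ, (∀ n ∈ X, M ≤ n) ∧ p'.getD i ∅ = p.getD i ∅ ∪ X)
    (h2 : ∀ i < p'.length, p.length ≤ i → ∀ n ∈ p'.getD i ∅, M ≤ n) {n : ℕ} (hn : n < M) :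
    wd p' n = wd p n := by
  have ha : ∀ (i : ℕ) (hi : i < p'.length) (hi' : i < p.length), (n ∈ p'[i] ↔ n ∈ p[i]) := by
    intro i hi hi'
    obtain ⟨X, hX, h3⟩ := h1 i hi'
    rw [List.getD_eq_getElem _ _ hi, List.getD_eq_getElem _ _ hi'] at h3
    rw [h3, Finset.mem_union]
    exact ⟨fun h4 => h4.resolve_right fun h5 => absurd (hX n h5) (not_le.2 hn), Or.inl⟩
  have hb : ∀ (i : ℕ) (hi : i < p'.length), p.length ≤ i → n ∉ p'[i] := by
    intro i hi hi' h3
    have h4 := h2 i hi hi' n (by rw [List.getD_eq_getElem _ _ hi]; exact h3)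
    exact absurd h4 (not_le.2 hn)
  have hc : p'.findIdx? (fun q => decide (n ∈ q)) = p.findIdx? (fun q => decide (n ∈ q)) := by
    cases h3 : p.findIdx? (fun q => decide (n ∈ q)) with
    | none =>
      rw [List.findIdx?_eq_none_iff] at h3 ⊢
      intro q hq
      obtain ⟨i, hi, rfl⟩ := List.mem_iff_getElem.1 hq
      rcases lt_or_ge i p.length with h4 | h4
      · have h5 := h3 p[i] (List.getElem_mem h4)
        rw [decide_eq_false_iff_not] at h5 ⊢
        exact fun h6 => h5 ((ha i hi h4).1 h6)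
      · rw [decide_eq_false_iff_not]
        exact hb i hi h4
    | some i =>
      rw [List.findIdx?_eq_some_iff_getElem] at h3 ⊢
      obtain ⟨hi, h4, h5⟩ := h3
      have hi' : i < p'.length := hi.trans_le hl
      refine ⟨hi', ?_, fun k hk => ?_⟩
      · rw [decide_eq_true_iff] at h4 ⊢
        exact (ha i hi' hi).2 h4
      · have h6 := h5 k hk
        rw [decide_eq_true_iff] at h6 ⊢
        exact fun h7 => h6 ((ha k (hk.trans hi') (hk.trans hi)).1 h7)
  unfold wd
  rw [hc]

/-- The list of the `n` pieces `a i` with the levels `r i`. -/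
def mkl (n : ℕ) (a : ℕ → Finset ℕ) (r : ℕ → ℕ) : PL := (List.range n).map fun i => (a i, r i)

theorem mkl_length (n : ℕ) (a : ℕ → Finset ℕ) (r : ℕ → ℕ) : (mkl n a r).length = n := by
  unfold mkl
  rw [List.length_map, List.length_range]

theorem mkl_pc {n : ℕ} {a : ℕ → Finset ℕ} {r : ℕ → ℕ} {i : ℕ} (hi : i < n) :
    pc (mkl n a r) i = a i := by
  unfold pc
  rw [List.getD_eq_getElem _ _ (by rw [mkl_length]; exact hi)]
  simp only [mkl, List.getElem_map, List.getElem_range]

theorem mkl_tg {n : ℕ} {a : ℕ → Finset ℕ} {r : ℕ → ℕ} {i : ℕ} (hi : i < n) :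
    tg (mkl n a r) i = r i := by
  unfold tg
  rw [List.getD_eq_getElem _ _ (by rw [mkl_length]; exact hi)]
  simp only [mkl, List.getElem_map, List.getElem_range]

theorem pc_append_left {p q : PL} {i : ℕ} (hi : i < p.length) : pc (p ++ q) i = pc p i := by
  unfold pc
  rw [List.getD_append _ _ _ _ hi]

theorem tg_append_left {p q : PL} {i : ℕ} (hi : i < p.length) : tg (p ++ q) i = tg p i := by
  unfold tg
  rw [List.getD_append _ _ _ _ hi]

theorem pc_append_right {p q : PL} {i : ℕ} (hi : p.length ≤ i) :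
    pc (p ++ q) i = pc q (i - p.length) := by
  unfold pc
  rw [List.getD_append_right _ _ _ _ hi]

theorem tg_append_right {p q : PL} {i : ℕ} (hi : p.length ≤ i) :
    tg (p ++ q) i = tg q (i - p.length) := by
  unfold tg
  rw [List.getD_append_right _ _ _ _ hi]

theorem sets_append (p q : PL) : sets (p ++ q) = sets p ++ sets q := by
  unfold sets
  rw [List.map_append]

theorem pc_mem {p : PL} {i : ℕ} (hi : i < p.length) : pc p i ∈ sets p := by
  unfold pc sets
  rw [List.getD_eq_getElem _ _ hi]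
  exact List.mem_map.2 ⟨_, List.getElem_mem hi, rfl⟩

end Pool.Agent.DB
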