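import Pool.Agent.H.MP_b2838e_lc.B.Iv

/-!
# Module Hs: a longer history, a new piece

`ext_hist`: `S' = ⟨L1 ++ S.L, S.M + 1, S.M + 1, S.p⟩` (`Blk.le` for `N`), `inv_ext`; `Ext` with the additional
sets `∅`; there are no new pieces, so `hT`, `hnew` are vacuous.

`ext_new`: `S'.L = S.L`, `S'.M = S.M + 1 + m`, `S'.N = S'.M`,
`S'.p = Function.update S.p j (S.p j ++ [(A, S.L.length)])`. `Fam`: `Fam.append`. `hnew`: `I = {(S.p j).length}`,
`YY (S'.p j) I = A`, `BP.umo` with `X = ∅` from `m` to `S'.M`; for `j' ≠ j` vacuous.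
-/

namespace Pool.Agent.DB

open Pool.Agent.DR

private theorem Hs_refl {Q : ℕ → ℕ → Finset ℕ} {h M : ℕ} {p : PL} (hp : Fam (sets p)) :
    TExt Q h M p p := by
  refine ⟨⟨hp, (sets_length p).ge, fun i _ => ⟨∅, UB.empty _ _, ?_⟩, fun i hi hi' => ?_⟩,
    fun _ _ => rfl, fun i hi hi' => absurd hi (not_lt.2 hi')⟩
  · rw [sets_getD, Finset.union_empty]
  · rw [sets_length] at hi
    exact absurd hi (not_lt.2 hi')

private theorem Hs_new {Q : ℕ → ℕ → Finset ℕ} {h M : ℕ} {p : PL} (hp : Fam (sets p))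
    (hb : ∀ x ∈ sets p, ∀ n ∈ x, n < M) {A : Finset ℕ} (hA : A.Nonempty) (hAR : UB (Q h) M A) :
    TExt Q h M p (p ++ [(A, h)]) := by
  have hl : (p ++ [(A, h)]).length = p.length + 1 := by
    rw [List.length_append, List.length_singleton]
  have hpc : pc (p ++ [(A, h)]) p.length = A := by
    rw [pc_append_right le_rfl, Nat.sub_self]
    rfl
  have htg : tg (p ++ [(A, h)]) p.length = h := by
    rw [tg_append_right le_rfl, Nat.sub_self]
    rfl
  refine ⟨⟨?_, ?_, fun i hi => ⟨∅, UB.empty _ _, ?_⟩, fun i hi hi' => ?_⟩,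
    fun i hi => tg_append_left hi, fun i hi hi' => ?_⟩
  · rw [sets_append]
    refine hp.append ⟨fun D hD => ?_, List.pairwise_singleton _ _⟩ fun x hx a ha B hB b hB' => ?_
    · have h1 : D = A := List.mem_singleton.1 hD
      rw [h1]
      exact hA
    · have h1 : B = A := List.mem_singleton.1 hB
      rw [h1] at hB'
      exact (hb x hx a ha).trans_le (hAR.2 b hB')
  · rw [sets_length, hl]
    exact Nat.le_succ _
  · rw [sets_getD, pc_append_left hi, Finset.union_empty]
  · rw [sets_length, hl] at hi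
    have h1 : i = p.length := by omega
    rw [sets_getD, h1, hpc]
    exact hAR
  · rw [hl] at hi
    have h1 : i = p.length := by omega
    rw [h1, htg]

theorem ext_hist {F : ℕ → List ℕ → ℕ → Option ℕ} {l : ℕ} {c : (ℕ → ℕ) → Fin l}
    {G : (ℕ → Finset ℕ) → ℕ → Finset ℕ → ℕ → Prop}
    {U : (ℕ → Finset ℕ) → Fin l → Finset ℕ → ℕ → Prop}
    (hBP : ∀ R, Blk R → (∀ i, ∀ n ∈ R i, 0 < n) → BP c R (G R) (U R))
    {P : Finset (Fin l)} {L0 : List (Par × ℕ)} {S : St l} (hS : Inv F U P L0 S)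
    (L1 : List (Par × ℕ)) :
    ∃ S' : St l, Inv F U P L0 S' ∧ Ext F S S' ∧ S'.L = L1 ++ S.L ∧ S'.p = S.p := by
  have hlt : ∀ j, ∀ i < (S.p j).length, ∀ n ∈ pc (S.p j) i, n < S.M + 1 := fun j i hi n hn =>
    (hS.hb j i hi n hn).2.trans (Nat.lt_succ_self _)
  have hE : Ext F S ⟨L1 ++ S.L, S.M + 1, S.M + 1, S.p⟩ :=
    ⟨Nat.lt_succ_self _, ⟨L1, rfl⟩, fun j => Hs_refl (hS.hF j)⟩
  refine ⟨⟨L1 ++ S.L, S.M + 1, S.M + 1, S.p⟩, inv_ext hBP hS hE (fun i hi n hn => ?_) hlt
    (fun j i hi hi' => absurd hi (not_lt.2 hi')) (fun j _ I hI hI' => ?_), hE, rfl, rfl⟩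
  · exact le_trans hi (((rv_tow F (L1 ++ S.L)).blk _).le i n hn)
  · obtain ⟨i, hi⟩ := hI
    exact absurd (hI' i hi).2 (not_lt.2 (hI' i hi).1)

theorem ext_new {F : ℕ → List ℕ → ℕ → Option ℕ} {l : ℕ} {c : (ℕ → ℕ) → Fin l}
    {G : (ℕ → Finset ℕ) → ℕ → Finset ℕ → ℕ → Prop}
    {U : (ℕ → Finset ℕ) → Fin l → Finset ℕ → ℕ → Prop}
    (hBP : ∀ R, Blk R → (∀ i, ∀ n ∈ R i, 0 < n) → BP c R (G R) (U R))
    {P : Finset (Fin l)} {L0 : List (Par × ℕ)} {S : St l} (hS : Inv F U P L0 S) {j : Fin l}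
    {A : Finset ℕ} {m : ℕ} (hA : A.Nonempty) (hAR : UB (Rv F S.L S.L.length) S.M A)
    (hAm : ∀ n ∈ A, n < m) (hU : U (Rv F S.L S.L.length) j A m) :
    ∃ S' : St l, Inv F U P L0 S' ∧ Ext F S S' ∧ (S.p j).length < (S'.p j).length := by
  classical
  have hl : (S.p j ++ [(A, S.L.length)]).length = (S.p j).length + 1 := by
    rw [List.length_append, List.length_singleton]
  have hpc : pc (S.p j ++ [(A, S.L.length)]) (S.p j).length = A := by
    rw [pc_append_right le_rfl, Nat.sub_self]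
    rfl
  have htg : tg (S.p j ++ [(A, S.L.length)]) (S.p j).length = S.L.length := by
    rw [tg_append_right le_rfl, Nat.sub_self]
    rfl
  have hsb : ∀ x ∈ sets (S.p j), ∀ n ∈ x, n < S.M := by
    intro x hx n hn
    obtain ⟨i, hi, hix⟩ := List.mem_iff_getElem.1 hx
    rw [sets_length] at hi
    have h1 : pc (S.p j) i = x := by
      rw [← sets_getD, List.getD_eq_getElem _ _ (by rw [sets_length]; exact hi)]
      exact hix
    exact (hS.hb j i hi n (by rw [h1]; exact hn)).2
  let p' : Fin l → PL := Function.update S.p j (S.p j ++ [(A, S.L.length)])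
  have hpj : p' j = S.p j ++ [(A, S.L.length)] := Function.update_self _ _ _
  have hpn : ∀ j', j' ≠ j → p' j' = S.p j' := fun j' h => Function.update_of_ne h _ _
  have hE : Ext F S ⟨S.L, S.M + 1 + m, S.M + 1 + m, p'⟩ := by
    refine ⟨?_, ⟨[], rfl⟩, fun j' => ?_⟩
    · show S.M < S.M + 1 + m
      omega
    · show TExt (Rv F S.L) S.L.length S.M (S.p j') (p' j')
      by_cases h : j' = j
      · rw [h, hpj]
        exact Hs_new (hS.hF j) hsb hA hAR
      · rw [hpn j' h]
        exact Hs_refl (hS.hF j')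
  refine ⟨⟨S.L, S.M + 1 + m, S.M + 1 + m, p'⟩, inv_ext hBP hS hE (fun i hi n hn => ?_)
    (fun j' i hi n hn => ?_) (fun j' i hi hi' => ?_) (fun j' hj' I hI hI' => ?_), hE, ?_⟩
  · exact le_trans hi (((rv_tow F S.L).blk _).le i n hn)
  · show n < S.M + 1 + m
    replace hi : i < (p' j').length := hi
    replace hn : n ∈ pc (p' j') i := hn
    by_cases h : j' = j
    · rw [h, hpj] at hi hn
      rcases lt_or_ge i (S.p j).length with h1 | h1
      · rw [pc_append_left h1] at hn
        have := (hS.hb j i h1 n hn).2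
        omega
      · rw [hl] at hi
        have h2 : i = (S.p j).length := by omega
        rw [h2, hpc] at hn
        have := hAm n hn
        omega
    · rw [hpn j' h] at hi hn
      have := (hS.hb j' i hi n hn).2
      omega
  · show tg (p' j') i = S.L.length
    replace hi : i < (p' j').length := hi
    by_cases h : j' = j
    · rw [h] at hi'
      rw [h, hpj, hl] at hi
      have h2 : i = (S.p j).length := by omega
      rw [h, hpj, h2, htg]
    · rw [hpn j' h] at hi
      exact absurd hi (not_lt.2 hi')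
  · show U (Rv F S.L S.L.length) j' (YY (p' j') I) (S.M + 1 + m)
    replace hI' : ∀ i ∈ I, (S.p j').length ≤ i ∧ i < (p' j').length := hI'
    by_cases h : j' = j
    · subst h
      have h1 : I = {(S.p j').length} := by
        refine Finset.eq_singleton_iff_nonempty_unique_mem.2 ⟨hI, fun i hi => ?_⟩
        have h2 := hI' i hi
        rw [hpj, hl] at h2
        omega
      have h2 : YY (p' j') I = A := by
        unfold YY
        rw [h1, Finset.singleton_biUnion, hpj, hpc]
      have h3 := (hBP (Rv F S.L S.L.length) ((rv_tow F S.L).blk _)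
        (fun i n hn => (rv_tow F S.L).pos _ i n hn)).umo j' A m ∅ (S.M + 1 + m) (by omega)
        (fun n hn => absurd hn (Finset.notMem_empty n)) hU
      rw [Finset.union_empty] at h3
      rw [h2]
      exact h3
    · obtain ⟨i, hi⟩ := hI
      have h1 := hI' i hi
      rw [hpn j' h] at h1
      exact absurd h1.2 (not_lt.2 h1.1)
  · show (S.p j).length < (p' j).length
    rw [hpj, hl]
    exact Nat.lt_succ_self _

end Pool.Agent.DB
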