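import Pool.Agent.H.MP_b2838e_lc.B.Tw

/-!
# Module It: all unions of the given sets meet the dense set

Proof. `Fil` is reflexive (`X i = ∅`) and transitive (`Fil .. M a M' a'`, `Fil .. M' a' M'' a''`: take the
unions; the second sets have elements `≥ M'`, those of the first are `< M'`, so they are disjoint).

By induction over a finset `𝓘` of subsets of `T` (`Finset.induction_on`) one gets the statement with
`I ∈ 𝓘` instead of all `I ⊆ T`; then take `𝓘 = T.powerset`. Step: given `M'`, `a'` for `𝓘` and a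
new `I ⊆ T`. If `I` is empty there is nothing to do. Otherwise let `i0` be the least element,
`R = Q (r i0)`. `I.biUnion a'` is not empty, a union of blocks of `R` (`Tow.ub` with `r i0 ≤ r i`,
`UB.biUnion`, `UB.union`) and below `M'`. By `BP.dns` there are `X`, `M''` with `G R s (I.biUnion a' ∪ X) M''`.
Let `a'' i = if i = i0 then a' i0 ∪ X else a' i`. Then `I.biUnion a'' = I.biUnion a' ∪ X`, and for the old
`I' ∈ 𝓘` `I'.biUnion a''` is `I'.biUnion a'` or `I'.biUnion a' ∪ X`, so it is in `G` by `BP.gmo`.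
-/

namespace Pool.Agent.DB

open Pool.Agent.DR

/-- The sets `a' i` are the sets `a i` with additional blocks of the level `r i` between `M` and `M'`. -/
def Fil (T : Finset ℕ) (r : ℕ → ℕ) (Q : ℕ → ℕ → Finset ℕ) (M : ℕ) (a : ℕ → Finset ℕ) (M' : ℕ)
    (a' : ℕ → Finset ℕ) : Prop :=
  M ≤ M' ∧ ∃ X : ℕ → Finset ℕ, (∀ i ∈ T, UB (Q (r i)) M (X i) ∧ ∀ n ∈ X i, n < M') ∧
    (∀ i ∈ T, ∀ i' ∈ T, i ≠ i' → Disjoint (X i) (X i')) ∧ ∀ i ∈ T, a' i = a i ∪ X i

theorem It_biUnion (J : Finset ℕ) (a : ℕ → Finset ℕ) (i0 : ℕ) (X : Finset ℕ) :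
    J.biUnion (fun i => a i ∪ (if i = i0 then X else ∅)) =
      J.biUnion a ∪ (if i0 ∈ J then X else ∅) := by
  ext n
  simp only [Finset.mem_biUnion, Finset.mem_union]
  constructor
  · rintro ⟨i, hi, h1 | h1⟩
    · exact Or.inl ⟨i, hi, h1⟩
    · by_cases h2 : i = i0
      · rw [if_pos h2] at h1
        rw [h2] at hi
        rw [if_pos hi]
        exact Or.inr h1
      · rw [if_neg h2] at h1
        exact absurd h1 (Finset.notMem_empty n)
  · rintro (⟨i, hi, h1⟩ | h1)
    · exact ⟨i, hi, Or.inl h1⟩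
    · by_cases h2 : i0 ∈ J
      · rw [if_pos h2] at h1
        exact ⟨i0, h2, Or.inr (by rw [if_pos rfl]; exact h1)⟩
      · rw [if_neg h2] at h1
        exact absurd h1 (Finset.notMem_empty n)

theorem It_aux {l : ℕ} {c : (ℕ → ℕ) → Fin l} {G : (ℕ → Finset ℕ) → ℕ → Finset ℕ → ℕ → Prop}
    {U : (ℕ → Finset ℕ) → Fin l → Finset ℕ → ℕ → Prop} {Q : ℕ → ℕ → Finset ℕ} (hQ : Tow Q)
    (hBP : ∀ r, BP c (Q r) (G (Q r)) (U (Q r))) (T : Finset ℕ) (r : ℕ → ℕ)
    (hr : ∀ i ∈ T, ∀ i' ∈ T, i ≤ i' → r i ≤ r i') (M : ℕ) (a : ℕ → Finset ℕ)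
    (ha : ∀ i ∈ T, (a i).Nonempty ∧ UB (Q (r i)) 0 (a i) ∧ ∀ n ∈ a i, n < M) (s : ℕ)
    (JJ : Finset (Finset ℕ)) : (∀ I ∈ JJ, I ⊆ T) →
    ∃ M' a', Fil T r Q M a M' a' ∧ ∀ I ∈ JJ, ∀ i0 ∈ I, (∀ i ∈ I, i0 ≤ i) →
      G (Q (r i0)) s (I.biUnion a') M' := by
  classical
  induction JJ using Finset.induction_on with
  | empty =>
    intro _
    refine ⟨M, a, ⟨le_rfl, fun _ => ∅, fun i _ => ⟨UB.empty _ _, fun n hn => absurd hn
      (Finset.notMem_empty n)⟩, fun i _ i' _ _ => Finset.disjoint_empty_left _, fun i _ =>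
      (Finset.union_empty _).symm⟩, fun I hI => absurd hI (Finset.notMem_empty I)⟩
  | insert I JJ hIJ ih =>
    intro hsub
    obtain ⟨M', a', ⟨hMM, X0, hX0, hX0d, haX⟩, hG⟩ :=
      ih (fun I' hI' => hsub I' (Finset.mem_insert_of_mem hI'))
    have hIT : I ⊆ T := hsub I (Finset.mem_insert_self I JJ)
    rcases I.eq_empty_or_nonempty with hI | hI
    · refine ⟨M', a', ⟨hMM, X0, hX0, hX0d, haX⟩, fun I' hI' i0 hi0 => ?_⟩
      rcases Finset.mem_insert.1 hI' with h1 | h1
      · rw [h1, hI] at hi0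
        exact absurd hi0 (Finset.notMem_empty i0)
      · exact hG I' h1 i0 hi0
    · obtain ⟨i0, hi0, hmin⟩ : ∃ i0 ∈ I, ∀ i ∈ I, i0 ≤ i :=
        ⟨I.min' hI, Finset.min'_mem I hI, fun i hi => Finset.min'_le I i hi⟩
      have h0T := hIT hi0
      have hlt : ∀ i ∈ T, ∀ n ∈ a' i, n < M' := by
        intro i hi n hn
        rw [haX i hi, Finset.mem_union] at hn
        rcases hn with hn | hn
        · exact ((ha i hi).2.2 n hn).trans_le hMM
        · exact (hX0 i hi).2 n hn
      have hub : ∀ i ∈ T, UB (Q (r i)) 0 (a' i) := by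
        intro i hi
        rw [haX i hi]
        exact (ha i hi).2.1.union ((hX0 i hi).1.mono (Nat.zero_le _))
      have hAne : (I.biUnion a').Nonempty := by
        obtain ⟨n, hn⟩ := (ha i0 h0T).1
        refine ⟨n, Finset.mem_biUnion.2 ⟨i0, hi0, ?_⟩⟩
        rw [haX i0 h0T]
        exact Finset.mem_union_left _ hn
      have hAub : UB (Q (r i0)) 0 (I.biUnion a') :=
        UB.biUnion fun i hi => hQ.ub (hr i0 h0T i (hIT hi) (hmin i hi)) (hub i (hIT hi))
      have hAlt : ∀ n ∈ I.biUnion a', n < M' := by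
        intro n hn
        obtain ⟨i, hi, hn⟩ := Finset.mem_biUnion.1 hn
        exact hlt i (hIT hi) n hn
      obtain ⟨X, M'', hM'', hXub, hXlt, hXG⟩ := (hBP (r i0)).dns s _ M' hAne hAub hAlt
      have hE : ∀ n, n ∉ (∅ : Finset ℕ) := Finset.notMem_empty
      refine ⟨M'', fun i => a' i ∪ (if i = i0 then X else ∅), ⟨hMM.trans hM'', fun i => X0 i ∪
        (if i = i0 then X else ∅), ?_, ?_, ?_⟩, ?_⟩
      · intro i hi
        refine ⟨?_, ?_⟩
        · refine (hX0 i hi).1.union ?_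
          by_cases h1 : i = i0
          · rw [if_pos h1, h1]
            exact hXub.mono hMM
          · rw [if_neg h1]
            exact UB.empty _ _
        · intro n hn
          rcases Finset.mem_union.1 hn with hn | hn
          · exact ((hX0 i hi).2 n hn).trans_le hM''
          · by_cases h1 : i = i0
            · rw [if_pos h1] at hn
              exact hXlt n hn
            · rw [if_neg h1] at hn
              exact absurd hn (hE n)
      · intro i hi i' hi' hne
        have hx : ∀ k n, n ∈ (if k = i0 then X else ∅) → k = i0 ∧ M' ≤ n := by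
          intro k n hn
          by_cases h1 : k = i0
          · rw [if_pos h1] at hn
            exact ⟨h1, hXub.2 n hn⟩
          · rw [if_neg h1] at hn
            exact absurd hn (hE n)
        rw [Finset.disjoint_left]
        intro n hn hn'
        rcases Finset.mem_union.1 hn with h1 | h1
        · rcases Finset.mem_union.1 hn' with h2 | h2
          · exact (Finset.disjoint_left.1 (hX0d i hi i' hi' hne)) h1 h2
          · have h3 := (hX0 i hi).2 n h1
            have h4 := (hx i' n h2).2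
            omega
        · rcases Finset.mem_union.1 hn' with h2 | h2
          · have h3 := (hX0 i' hi').2 n h2
            have h4 := (hx i n h1).2
            omega
          · exact hne ((hx i n h1).1.trans (hx i' n h2).1.symm)
      · intro i hi
        change a' i ∪ _ = a i ∪ (X0 i ∪ _)
        rw [haX i hi, Finset.union_assoc]
      · intro I' hI' i1 hi1 hmin1
        rw [It_biUnion]
        rcases Finset.mem_insert.1 hI' with h1 | h1
        · rw [h1] at hi1 hmin1 ⊢
          have h2 : i1 = i0 := le_antisymm (hmin1 i0 hi0) (hmin i1 hi1)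
          rw [h2, if_pos hi0]
          exact hXG
        · refine (hBP (r i1)).gmo s _ M' _ M'' hM'' ?_ (hG I' h1 i1 hi1 hmin1)
          intro n hn
          by_cases h2 : i0 ∈ I'
          · rw [if_pos h2] at hn
            exact hXub.2 n hn
          · rw [if_neg h2] at hn
            exact absurd hn (hE n)

theorem iter {l : ℕ} {c : (ℕ → ℕ) → Fin l} {G : (ℕ → Finset ℕ) → ℕ → Finset ℕ → ℕ → Prop}
    {U : (ℕ → Finset ℕ) → Fin l → Finset ℕ → ℕ → Prop} {Q : ℕ → ℕ → Finset ℕ} (hQ : Tow Q)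
    (hBP : ∀ r, BP c (Q r) (G (Q r)) (U (Q r))) (T : Finset ℕ) (r : ℕ → ℕ)
    (hr : ∀ i ∈ T, ∀ i' ∈ T, i ≤ i' → r i ≤ r i') (M : ℕ) (a : ℕ → Finset ℕ)
    (ha : ∀ i ∈ T, (a i).Nonempty ∧ UB (Q (r i)) 0 (a i) ∧ ∀ n ∈ a i, n < M) (s : ℕ) :
    ∃ M' a', Fil T r Q M a M' a' ∧ ∀ I ⊆ T, ∀ i0 ∈ I, (∀ i ∈ I, i0 ≤ i) →
      G (Q (r i0)) s (I.biUnion a') M' := by
  obtain ⟨M', a', h1, h2⟩ := It_aux hQ hBP T r hr M a ha s T.powerset
    (fun I hI => Finset.mem_powerset.1 hI)
  exact ⟨M', a', h1, fun I hI => h2 I (Finset.mem_powerset.2 hI)⟩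

end Pool.Agent.DB
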