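import Pool.Agent.H.MP_b2838e_lc.B.Sv

/-!
# Module Iv: the properties of an extension

Proof. `hL`: append. `hF`: from `UExt`. `hb`: `0 < n`: the pieces are unions of blocks (`hS.hu`, `UExt`), whose
elements are positive (`Tow.pos`, `rv_tow`, `mem_RU`). `hm`, `hh`: old levels are those of `S` (at most
`S.L.length`), new ones are `S.L.length` (`hT`). `hu`: `rv_low`, `UB.mono`, `UB.union`. `hc`: let `I`, `i0`. If
`i0 ≥ (S.p j).length` all members of `I` are new: `hnew` (and `hT`, `rv_low`). If `i0` is old let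
`I0 = I.filter (· < (S.p j).length)`; by `hS.hc` we have
`U (Rv F S.L (tg (S.p j) i0)) j (YY (S.p j) I0) S.M`. Let `X = (YY (S'.p j) I).filter (S.M ≤ ·)`. Then
`YY (S'.p j) I = YY (S.p j) I0 ∪ X`: the additional and the new sets have elements `≥ S.M` only. Now use
`BP.umo` for the reservoir (blocks and positive by `rv_tow`), and `rv_low`.
-/

namespace Pool.Agent.DB

open Pool.Agent.DR

private theorem Iv_old {Q : ℕ → ℕ → Finset ℕ} {h M : ℕ} {p p' : PL} (hE : TExt Q h M p p') {i : ℕ}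
    (hi : i < p.length) : ∃ X, UB (Q (tg p i)) M X ∧ pc p' i = pc p i ∪ X := by
  obtain ⟨X, h1, h2⟩ := hE.1.2.2.1 i hi
  rw [sets_getD] at h2
  exact ⟨X, h1, h2⟩

private theorem Iv_new {Q : ℕ → ℕ → Finset ℕ} {h M : ℕ} {p p' : PL} (hE : TExt Q h M p p') {i : ℕ}
    (hi : i < p'.length) (hi' : p.length ≤ i) : UB (Q h) M (pc p' i) := by
  have h1 := hE.1.2.2.2 i (by rw [sets_length]; exact hi) hi'
  rw [sets_getD] at h1
  exact h1

private theorem Iv_pos {Q : ℕ → ℕ → Finset ℕ} (hQ : Tow Q) {r M : ℕ} {X : Finset ℕ}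
    (h : UB (Q r) M X) : ∀ n ∈ X, 0 < n := by
  obtain ⟨⟨D, rfl⟩, -⟩ := h
  intro n hn
  obtain ⟨k, -, hk⟩ := mem_RU.1 hn
  exact hQ.pos r k n hk

theorem inv_ext {F : ℕ → List ℕ → ℕ → Option ℕ} {l : ℕ} {c : (ℕ → ℕ) → Fin l}
    {G : (ℕ → Finset ℕ) → ℕ → Finset ℕ → ℕ → Prop}
    {U : (ℕ → Finset ℕ) → Fin l → Finset ℕ → ℕ → Prop}
    (hBP : ∀ R, Blk R → (∀ i, ∀ n ∈ R i, 0 < n) → BP c R (G R) (U R))
    {P : Finset (Fin l)} {L0 : List (Par × ℕ)} {S S' : St l} (hS : Inv F U P L0 S)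
    (hE : Ext F S S') (hN : ∀ i ≥ S'.N, ∀ n ∈ Rv F S'.L S'.L.length i, S'.M ≤ n)
    (hb : ∀ j, ∀ i < (S'.p j).length, ∀ n ∈ pc (S'.p j) i, n < S'.M)
    (hT : ∀ j, ∀ i < (S'.p j).length, (S.p j).length ≤ i → tg (S'.p j) i = S.L.length)
    (hnew : ∀ j ∈ P, ∀ I : Finset ℕ, I.Nonempty →
      (∀ i ∈ I, (S.p j).length ≤ i ∧ i < (S'.p j).length) →
      U (Rv F S.L S.L.length) j (YY (S'.p j) I) S'.M) : Inv F U P L0 S' := by
  classical
  obtain ⟨hM, ⟨L1, hL1⟩, hE'⟩ := hE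
  have hQ : Tow (Rv F S.L) := rv_tow F S.L
  have hlow : ∀ r ≤ S.L.length, Rv F S'.L r = Rv F S.L r := fun r hr => by
    rw [hL1]
    exact rv_low F L1 S.L hr
  have htg : ∀ j, ∀ i < (S'.p j).length, tg (S'.p j) i ≤ S.L.length := by
    intro j i hi
    rcases lt_or_ge i (S.p j).length with h | h
    · rw [(hE' j).2.1 i h]
      exact hS.hh j i h
    · exact (hT j i hi h).le
  refine ⟨?_, hN, fun j => (hE' j).1.1, ?_, ?_, ?_, ?_, ?_⟩
  · obtain ⟨L', hL'⟩ := hS.hL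
    exact ⟨L1 ++ L', by rw [hL1, hL', List.append_assoc]⟩
  · intro j i hi n hn
    refine ⟨?_, hb j i hi n hn⟩
    rcases lt_or_ge i (S.p j).length with h | h
    · obtain ⟨X, h1, h2⟩ := Iv_old (hE' j) h
      rw [h2] at hn
      rcases Finset.mem_union.1 hn with h3 | h3
      · exact (hS.hb j i h n h3).1
      · exact Iv_pos hQ h1 n h3
    · exact Iv_pos hQ (Iv_new (hE' j) hi h) n hn
  · intro j i i' hii hi'
    rcases lt_or_ge i' (S.p j).length with h | h
    · rw [(hE' j).2.1 i' h, (hE' j).2.1 i (hii.trans_lt h)]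
      exact hS.hm j i i' hii h
    · rw [hT j i' hi' h]
      exact htg j i (hii.trans_lt hi')
  · intro j i hi
    refine (htg j i hi).trans ?_
    rw [hL1, List.length_append]
    exact Nat.le_add_left _ _
  · intro j i hi
    rw [hlow _ (htg j i hi)]
    rcases lt_or_ge i (S.p j).length with h | h
    · obtain ⟨X, h1, h2⟩ := Iv_old (hE' j) h
      rw [h2, (hE' j).2.1 i h]
      exact (hS.hu j i h).union (h1.mono (Nat.zero_le _))
    · rw [hT j i hi h]
      exact (Iv_new (hE' j) hi h).mono (Nat.zero_le _)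
  · intro j hj I hI i0 hi0 hmin
    rw [hlow _ (htg j i0 (hI i0 hi0))]
    rcases lt_or_ge i0 (S.p j).length with h | h
    · obtain ⟨I0, hI0⟩ : ∃ I0, I0 = I.filter (fun i => i < (S.p j).length) := ⟨_, rfl⟩
      obtain ⟨X, hX⟩ : ∃ X, X = (YY (S'.p j) I).filter (fun n => S.M ≤ n) := ⟨_, rfl⟩
      have hmem : ∀ i, i ∈ I0 ↔ i ∈ I ∧ i < (S.p j).length := fun i => by
        rw [hI0, Finset.mem_filter]
      have h1 := hS.hc j hj I0 (fun i hi => ((hmem i).1 hi).2) i0 ((hmem i0).2 ⟨hi0, h⟩)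
        (fun i hi => hmin i ((hmem i).1 hi).1)
      have h2 : YY (S'.p j) I = YY (S.p j) I0 ∪ X := by
        ext n
        rw [Finset.mem_union, hX, Finset.mem_filter]
        constructor
        · intro hn
          obtain ⟨i, hi, hni⟩ := Finset.mem_biUnion.1 hn
          rcases lt_or_ge i (S.p j).length with h3 | h3
          · obtain ⟨Y, h4, h5⟩ := Iv_old (hE' j) h3
            rw [h5] at hni
            rcases Finset.mem_union.1 hni with h6 | h6
            · exact Or.inl (Finset.mem_biUnion.2 ⟨i, (hmem i).2 ⟨hi, h3⟩, h6⟩)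
            · exact Or.inr ⟨hn, h4.2 n h6⟩
          · exact Or.inr ⟨hn, (Iv_new (hE' j) (hI i hi) h3).2 n hni⟩
        · rintro (hn | hn)
          · obtain ⟨i, hi, hni⟩ := Finset.mem_biUnion.1 hn
            obtain ⟨hi1, hi2⟩ := (hmem i).1 hi
            obtain ⟨Y, -, h5⟩ := Iv_old (hE' j) hi2
            refine Finset.mem_biUnion.2 ⟨i, hi1, ?_⟩
            rw [h5]
            exact Finset.mem_union_left _ hni
          · exact hn.1
      rw [h2, (hE' j).2.1 i0 h]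
      refine (hBP _ (hQ.blk _) (hQ.pos _)).umo j _ S.M X S'.M hM.le ?_ h1
      intro n hn
      rw [hX] at hn
      exact (Finset.mem_filter.1 hn).2
    · rw [hT j i0 (hI i0 hi0) h]
      exact hnew j hj I ⟨i0, hi0⟩ (fun i hi => ⟨h.trans (hmin i hi), hI i hi⟩)

end Pool.Agent.DB
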