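import Pool.Agent.H.MP_b2838e_lc.B.It

/-!
# Module Lb: labels of the sets of indices

Proof. Use `iter` with the constant tower `Q r = R` (`Tow`: `blk_id`, `RU_id`), `T = Finset.Ico N K`,
`r = 0`, `M = B`, `a = R`, `s = 0`. It gives `M'` and sets `X a` for `a ∈ T`. For every nonempty
`D ⊆ T` the set `D.biUnion (fun a => R a ∪ X a)` (equal to `D.biUnion a'`) satisfies `G R 0 _ M'`, so by
`BP.dec` there is a `j` with `U R j _ M'`; let `f D` be such a `j`. By `hP` it is in `P`: the set is a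
nonempty union of blocks with elements `≥ M0`. For the other `D` let `f D = f {N}`.
-/

namespace Pool.Agent.DB

open Pool.Agent.DR

theorem labels {l : ℕ} {c : (ℕ → ℕ) → Fin l} {G : (ℕ → Finset ℕ) → ℕ → Finset ℕ → ℕ → Prop}
    {U : (ℕ → Finset ℕ) → Fin l → Finset ℕ → ℕ → Prop} {R : ℕ → Finset ℕ} (hR : Blk R)
    (h0 : ∀ i, ∀ n ∈ R i, 0 < n) (hBP : BP c R (G R) (U R)) {P : Finset (Fin l)} {M0 N K B : ℕ}
    (hP : ∀ A m j, A.Nonempty → UB R M0 A → (∀ n ∈ A, n < m) → U R j A m → j ∈ P)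
    (hN : ∀ a ≥ N, ∀ n ∈ R a, M0 ≤ n) (hK : ∀ a < K, ∀ n ∈ R a, n < B) (hB : M0 ≤ B) (hNK : N < K) :
    ∃ (f : Finset ℕ → Fin l) (X : ℕ → Finset ℕ) (M' : ℕ), B ≤ M' ∧
      (∀ a, N ≤ a → a < K → UB R B (X a) ∧ ∀ n ∈ X a, n < M') ∧
      (∀ a b, N ≤ a → a < K → N ≤ b → b < K → a ≠ b → Disjoint (X a) (X b)) ∧
      (∀ D : Finset ℕ, D.Nonempty → (∀ a ∈ D, N ≤ a) → f D ∈ P) ∧
      ∀ D : Finset ℕ, D.Nonempty → (∀ a ∈ D, N ≤ a ∧ a < K) →
        U R (f D) (D.biUnion fun a => R a ∪ X a) M' := by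
  classical
  have hQ : Tow (fun _ => R) := ⟨fun _ => hR, fun _ => h0, fun _ _ _ => ⟨_, blk_id, RU_id R⟩⟩
  have hone : ∀ a, RU R {a} = R a := fun a => by
    unfold RU
    rw [Finset.singleton_biUnion]
  obtain ⟨M', a', ⟨hM, X, hX1, hX2, hX3⟩, hG⟩ := iter hQ (fun _ => hBP) (Finset.Ico N K)
    (fun _ => 0) (fun _ _ _ _ _ => le_rfl) B R
    (fun i hi => ⟨hR.1 i, ⟨⟨{i}, (hone i).symm⟩, fun n _ => Nat.zero_le n⟩,
      hK i (Finset.mem_Ico.1 hi).2⟩) 0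
  have hlab : ∀ D : Finset ℕ, D.Nonempty ∧ D ⊆ Finset.Ico N K →
      ∃ j, U R j (D.biUnion fun a => R a ∪ X a) M' := by
    rintro D ⟨hD, hDT⟩
    have h1 := hG D hDT (D.min' hD) (D.min'_mem hD) (fun i hi => D.min'_le i hi)
    have h2 : D.biUnion a' = D.biUnion fun a => R a ∪ X a :=
      Finset.biUnion_congr rfl fun a ha => hX3 a (hDT ha)
    rw [h2] at h1
    exact hBP.dec _ _ _ h1
  have hT0 : ({N} : Finset ℕ).Nonempty ∧ {N} ⊆ Finset.Ico N K :=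
    ⟨Finset.singleton_nonempty N,
      Finset.singleton_subset_iff.2 (Finset.mem_Ico.2 ⟨le_rfl, hNK⟩)⟩
  have hmem : ∀ D : Finset ℕ, D.Nonempty ∧ D ⊆ Finset.Ico N K → ∀ j,
      U R j (D.biUnion fun a => R a ∪ X a) M' → j ∈ P := by
    rintro D ⟨hD, hDT⟩ j hj
    refine hP _ M' j ?_ (UB.biUnion fun a ha => ?_) (fun n hn => ?_) hj
    · obtain ⟨a, ha⟩ := hD
      obtain ⟨n, hn⟩ := hR.1 a
      exact ⟨n, Finset.mem_biUnion.2 ⟨a, ha, Finset.mem_union_left _ hn⟩⟩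
    · have h1 : UB R M0 (R a) := ⟨⟨{a}, (hone a).symm⟩, hN a (Finset.mem_Ico.1 (hDT ha)).1⟩
      exact h1.union ((hX1 a (hDT ha)).1.mono hB)
    · obtain ⟨a, ha, hn'⟩ := Finset.mem_biUnion.1 hn
      rcases Finset.mem_union.1 hn' with h1 | h1
      · exact lt_of_lt_of_le (hK a (Finset.mem_Ico.1 (hDT ha)).2 n h1) hM
      · exact (hX1 a (hDT ha)).2 n h1
  let f : Finset ℕ → Fin l := fun D => if h : D.Nonempty ∧ D ⊆ Finset.Ico N K then
    (hlab D h).choose else (hlab {N} hT0).choose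
  have hf : ∀ D : Finset ℕ, D.Nonempty ∧ D ⊆ Finset.Ico N K →
      U R (f D) (D.biUnion fun a => R a ∪ X a) M' := by
    intro D h
    simp only [f, dif_pos h]
    exact (hlab D h).choose_spec
  refine ⟨f, X, M', hM, fun a h1 h2 => hX1 a (Finset.mem_Ico.2 ⟨h1, h2⟩),
    fun a b h1 h2 h3 h4 hne => hX2 a (Finset.mem_Ico.2 ⟨h1, h2⟩) b (Finset.mem_Ico.2 ⟨h3, h4⟩) hne,
    fun D hD _ => ?_, fun D hD hDT => hf D ⟨hD, fun a ha => Finset.mem_Ico.2 (hDT a ha)⟩⟩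
  by_cases h : D.Nonempty ∧ D ⊆ Finset.Ico N K
  · exact hmem D h _ (hf D h)
  · simp only [f, dif_neg h]
    exact hmem {N} hT0 _ (hlab {N} hT0).choose_spec

end Pool.Agent.DB
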