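import Pool.Agent.H.MP_b2838e_lc.B.Iv
import Pool.Agent.H.MP_b2838e_lc.B.It

/-!
# Module Me: meeting a dense set with all unions of pieces

Proof. For every `j` use `iter` with `Q = Rv F S.L` (`rv_tow`), `T = Finset.range (S.p j).length`,
`r = tg (S.p j)` (`hS.hm`), `M = S.M`, `a = pc (S.p j)` (nonempty by `hS.hF` and `pc_mem`; `hS.hu`, `hS.hb`) and
`s`; choose `M' j`, `a' j`. Let `S'.L = S.L`, `S'.M = S.M + 1 + ∑ j, M' j`, `S'.N = S'.M` (`Blk.le`),
`S'.p j = mkl (S.p j).length (a' j) (tg (S.p j))`. `Ext`: `fam_fill` for `sets (S'.p j)`, `Fil`. `Inv`: `inv_ext`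
(there are no new pieces, so `hT` and `hnew` are vacuous). The property: `YY (S'.p j) I = I.biUnion (a' j)`
(`mkl_pc`) for the `I` in question, and `BP.gmo` with `X = ∅` from `M' j` to `S'.M`.
-/

namespace Pool.Agent.DB

open Pool.Agent.DR

/-- All unions of pieces meet the dense set with the number `s`. -/
def Met (F : ℕ → List ℕ → ℕ → Option ℕ) {l : ℕ} (G : (ℕ → Finset ℕ) → ℕ → Finset ℕ → ℕ → Prop)
    (S : St l) (s : ℕ) : Prop :=
  ∀ j, ∀ I : Finset ℕ, (∀ i ∈ I, i < (S.p j).length) → ∀ i0 ∈ I, (∀ i ∈ I, i0 ≤ i) →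
    G (Rv F S.L (tg (S.p j) i0)) s (YY (S.p j) I) S.M

theorem ext_meet {F : ℕ → List ℕ → ℕ → Option ℕ} {l : ℕ} {c : (ℕ → ℕ) → Fin l}
    {G : (ℕ → Finset ℕ) → ℕ → Finset ℕ → ℕ → Prop}
    {U : (ℕ → Finset ℕ) → Fin l → Finset ℕ → ℕ → Prop}
    (hBP : ∀ R, Blk R → (∀ i, ∀ n ∈ R i, 0 < n) → BP c R (G R) (U R))
    {P : Finset (Fin l)} {L0 : List (Par × ℕ)} {S : St l} (hS : Inv F U P L0 S) (s : ℕ) :
    ∃ S' : St l, Inv F U P L0 S' ∧ Ext F S S' ∧ Met F G S' s := by
  classical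
  have hQ := rv_tow F S.L
  have hBQ : ∀ r, BP c (Rv F S.L r) (G (Rv F S.L r)) (U (Rv F S.L r)) :=
    fun r => hBP _ (hQ.blk r) (hQ.pos r)
  have hit : ∀ j, ∃ M' a', Fil (Finset.range (S.p j).length) (tg (S.p j)) (Rv F S.L) S.M
      (pc (S.p j)) M' a' ∧ ∀ I ⊆ Finset.range (S.p j).length, ∀ i0 ∈ I, (∀ i ∈ I, i0 ≤ i) →
        G (Rv F S.L (tg (S.p j) i0)) s (I.biUnion a') M' := by
    intro j
    refine iter hQ hBQ (Finset.range (S.p j).length) (tg (S.p j)) (fun i _ i' hi' h => ?_) S.M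
      (pc (S.p j)) (fun i hi => ⟨?_, ?_, ?_⟩) s
    · exact hS.hm j i i' h (Finset.mem_range.1 hi')
    · exact (hS.hF j).1 _ (pc_mem (Finset.mem_range.1 hi))
    · exact hS.hu j i (Finset.mem_range.1 hi)
    · exact fun n hn => (hS.hb j i (Finset.mem_range.1 hi) n hn).2
  choose M' a' hFil hG using hit
  choose hMM X hX1 hX2 hX3 using hFil
  let MM : ℕ := S.M + 1 + ∑ j, M' j
  have hM' : ∀ j, M' j ≤ MM := by
    intro j
    have h1 : M' j ≤ ∑ j, M' j :=
      Finset.single_le_sum (f := M') (fun _ _ => Nat.zero_le _) (Finset.mem_univ j)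
    have h2 : MM = S.M + 1 + ∑ j, M' j := rfl
    omega
  have hSM : S.M < MM := by
    have h2 : MM = S.M + 1 + ∑ j, M' j := rfl
    omega
  let S' : St l := ⟨S.L, MM, MM, fun j => mkl (S.p j).length (a' j) (tg (S.p j))⟩
  have hlen : ∀ j, (S'.p j).length = (S.p j).length := fun j => mkl_length _ _ _
  have hpc : ∀ j, ∀ i < (S.p j).length, pc (S'.p j) i = a' j i := fun j i hi => mkl_pc hi
  have htg : ∀ j, ∀ i < (S.p j).length, tg (S'.p j) i = tg (S.p j) i := fun j i hi => mkl_tg hi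
  have hE : Ext F S S' := by
    refine ⟨hSM, ⟨[], rfl⟩, fun j => ⟨⟨?_, ?_, ?_, ?_⟩, htg j, ?_⟩⟩
    · refine fam_fill (hS.hF j) (by rw [sets_length, sets_length, hlen j]) (M := S.M) ?_ (X j)
        ?_ ?_ ?_
      · intro x hx n hn
        obtain ⟨y, hy, rfl⟩ := List.mem_map.1 hx
        obtain ⟨i, hi, rfl⟩ := List.mem_iff_getElem.1 hy
        refine (hS.hb j i hi n ?_).2
        unfold pc
        rw [List.getD_eq_getElem _ _ hi]
        exact hn
      · intro i hi
        rw [sets_length] at hi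
        rw [sets_getD, sets_getD, hpc j i hi]
        exact hX3 j i (Finset.mem_range.2 hi)
      · intro i hi n hn
        rw [sets_length] at hi
        exact (hX1 j i (Finset.mem_range.2 hi)).1.2 n hn
      · intro i hi i' hi' hne
        rw [sets_length] at hi hi'
        exact hX2 j i (Finset.mem_range.2 hi) i' (Finset.mem_range.2 hi') hne
    · rw [sets_length, hlen j]
    · intro i hi
      refine ⟨X j i, (hX1 j i (Finset.mem_range.2 hi)).1, ?_⟩
      rw [sets_getD, hpc j i hi]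
      exact hX3 j i (Finset.mem_range.2 hi)
    · intro i hi hi'
      rw [sets_length, hlen j] at hi
      omega
    · intro i hi hi'
      rw [hlen j] at hi
      omega
  have hI : Inv F U P L0 S' := by
    refine inv_ext hBP hS hE ?_ ?_ ?_ ?_
    · intro i hi n hn
      have h1 : i ≤ n := (hQ.blk S.L.length).le i n hn
      have h2 : MM ≤ i := hi
      exact h2.trans h1
    · intro j i hi n hn
      rw [hlen j] at hi
      rw [hpc j i hi, hX3 j i (Finset.mem_range.2 hi)] at hn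
      rcases Finset.mem_union.1 hn with h1 | h1
      · exact (hS.hb j i hi n h1).2.trans hSM
      · exact ((hX1 j i (Finset.mem_range.2 hi)).2 n h1).trans_le (hM' j)
    · intro j i hi hi'
      rw [hlen j] at hi
      omega
    · intro j _ I hI0 hI1
      obtain ⟨i, hi⟩ := hI0
      have h1 := hI1 i hi
      rw [hlen j] at h1
      omega
  refine ⟨S', hI, hE, fun j I hI1 i0 hi0 hmin => ?_⟩
  have hI2 : ∀ i ∈ I, i < (S.p j).length := fun i hi => by
    have h1 := hI1 i hi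
    rw [hlen j] at h1
    exact h1
  have h1 := hG j I (fun i hi => Finset.mem_range.2 (hI2 i hi)) i0 hi0 hmin
  have h2 : YY (S'.p j) I = I.biUnion (a' j) := by
    unfold YY
    exact Finset.biUnion_congr rfl fun i hi => hpc j i (hI2 i hi)
  have h3 := (hBQ (tg (S.p j) i0)).gmo s _ _ ∅ MM (hM' j)
    (fun n hn => absurd hn (Finset.notMem_empty n)) h1
  rw [Finset.union_empty] at h3
  rw [htg j i0 (hI2 i0 hi0), h2]
  exact h3

end Pool.Agent.DB
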