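import Pool.Agent.H.MP_b2838e_lc.B.Sq
import Pool.Agent.H.MP_b2838e_lc.B.Me
import Pool.Agent.H.MP_b2838e_lc.B.Bp

/-!
# Module Lm: the limit of the conditions
-/

namespace Pool.Agent.DB

open Pool.Agent.DR

theorem sets_getElem (p : PL) (i : ℕ) (hi : i < (sets p).length) : (sets p)[i] = pc p i := by
  rw [← sets_getD, List.getD_eq_getElem _ _ hi]

theorem uext_wd {Q : ℕ → ℕ → Finset ℕ} {h M : ℕ} {p : PL} {p' : List (Finset ℕ)}
    (hp : UExt Q h M p p') {n : ℕ} (hn : n < M) : wd p' n = wd (sets p) n := by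
  obtain ⟨-, h1, h2, h3⟩ := hp
  refine wd_agree (M := M) (by rw [sets_length]; exact h1) (fun i hi => ?_) (fun i hi hi' => ?_) hn
  · rw [sets_length] at hi
    obtain ⟨X, hX, h4⟩ := h2 i hi
    exact ⟨X, hX.2, by rw [h4, sets_getD]⟩
  · rw [sets_length] at hi'
    exact (h3 i hi hi').2

theorem text_refl {Q : ℕ → ℕ → Finset ℕ} {h M : ℕ} {p : PL} (hp : Fam (sets p)) :
    TExt Q h M p p := by
  refine ⟨⟨hp, by rw [sets_length], fun i _ => ⟨∅, UB.empty _ _, ?_⟩, fun i hi hi' => ?_⟩,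
    fun i _ => rfl, fun i hi hi' => absurd hi (not_lt.2 hi')⟩
  · rw [sets_getD, Finset.union_empty]
  · rw [sets_length] at hi
    exact absurd hi (not_lt.2 hi')

variable {F : ℕ → List ℕ → ℕ → Option ℕ} {l : ℕ} {c : (ℕ → ℕ) → Fin l}
  {G : (ℕ → Finset ℕ) → ℕ → Finset ℕ → ℕ → Prop}
  {U : (ℕ → Finset ℕ) → Fin l → Finset ℕ → ℕ → Prop}
  {P : Finset (Fin l)} {L0 : List (Par × ℕ)}

/-- The tasks: a new piece, a requirement, a dense set. -/
abbrev Task (l : ℕ) : Type := Fin l ⊕ (((Fin l → ℕ) × ℕ) ⊕ ℕ)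

/-- The task is done. -/
def TDone (F : ℕ → List ℕ → ℕ → Option ℕ) {l : ℕ}
    (G : (ℕ → Finset ℕ) → ℕ → Finset ℕ → ℕ → Prop) (P : Finset (Fin l)) (g : ℕ → ℕ)
    (S S' : St l) : Task l → Prop
  | Sum.inl j => j ∈ P → (S.p j).length < (S'.p j).length
  | Sum.inr (Sum.inl (e, t0)) => Don F P g S' e t0
  | Sum.inr (Sum.inr s) => Met F G S' s

/-- The partition for the colour `j`. -/
def xj (s : ℕ → St l) (j : Fin l) (n : ℕ) : ℕ := wd (sets ((s (n + 1)).p j)) n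

section

variable {g : ℕ → ℕ} {s : ℕ → St l}

theorem lim_ext (hI : ∀ k, Inv F U P L0 (s k)) (hE : ∀ k, Ext F (s k) (s (k + 1))) {k k' : ℕ}
    (h : k < k') : Ext F (s k) (s k') := by
  induction k', h using Nat.le_induction with
  | base => exact hE k
  | succ k' _ ih => exact Ext.trans (hI k) ih (hE k')

theorem lim_M (hE : ∀ k, Ext F (s k) (s (k + 1))) (k : ℕ) : k ≤ (s k).M := by
  induction k with
  | zero => exact Nat.zero_le _
  | succ k ih => exact lt_of_le_of_lt ih (hE k).1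

theorem lim_t (hI : ∀ k, Inv F U P L0 (s k)) (hE : ∀ k, Ext F (s k) (s (k + 1))) (j : Fin l)
    {k k' : ℕ} (h : k ≤ k') :
    TExt (Rv F (s k).L) (s k).L.length (s k).M ((s k).p j) ((s k').p j) := by
  rcases h.lt_or_eq with h | h
  · exact (lim_ext hI hE h).2.2 j
  · subst h
    exact text_refl ((hI k).hF j)

theorem lim_L (hI : ∀ k, Inv F U P L0 (s k)) (hE : ∀ k, Ext F (s k) (s (k + 1)))
    {k k' : ℕ} (h : k ≤ k') : ∃ L1, (s k').L = L1 ++ (s k).L := by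
  rcases h.lt_or_eq with h | h
  · exact (lim_ext hI hE h).2.1
  · subst h
    exact ⟨[], rfl⟩

theorem lim_x (hI : ∀ k, Inv F U P L0 (s k)) (hE : ∀ k, Ext F (s k) (s (k + 1))) (j : Fin l)
    (k : ℕ) {n : ℕ} (hn : n < (s k).M) : xj s j n = wd (sets ((s k).p j)) n := by
  have hn' : n < (s (n + 1)).M := lt_of_lt_of_le (Nat.lt_succ_self n) (lim_M hE (n + 1))
  unfold xj
  rcases le_total k (n + 1) with h | h
  · exact uext_wd (lim_t hI hE j h).1 hn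
  · exact (uext_wd (lim_t hI hE j h).1 hn').symm

theorem lim_get (hI : ∀ k, Inv F U P L0 (s k)) (hE : ∀ k, Ext F (s k) (s (k + 1))) (j : Fin l)
    (k : ℕ) {i : ℕ} (hi : i < ((s k).p j).length) {n : ℕ} (hn : n ∈ pc ((s k).p j) i) :
    xj s j n = i + 1 := by
  rw [lim_x hI hE j k ((hI k).hb j i hi n hn).2]
  refine wd_get ((hI k).hF j) (by rw [sets_length]; exact hi) ?_
  rw [sets_getElem]
  exact hn

theorem lim_zero (hI : ∀ k, Inv F U P L0 (s k)) (j : Fin l) : xj s j 0 = 0 := by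
  unfold xj
  refine wd_eq_zero fun q hq h0 => ?_
  obtain ⟨i, hi, rfl⟩ := List.mem_iff_getElem.1 hq
  rw [sets_getElem] at h0
  rw [sets_length] at hi
  exact lt_irrefl 0 ((hI 1).hb j i hi 0 h0).1

theorem lim_at (hI : ∀ k, Inv F U P L0 (s k)) (hE : ∀ k, Ext F (s k) (s (k + 1))) (j : Fin l)
    (k : ℕ) {n i : ℕ} (hn : n < (s k).M) (h : xj s j n = i + 1) :
    i < ((s k).p j).length ∧ n ∈ pc ((s k).p j) i := by
  rw [lim_x hI hE j k hn] at h
  obtain ⟨hi, h1⟩ := wd_spec h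
  rw [sets_getElem] at h1
  rw [sets_length] at hi
  exact ⟨hi, h1⟩

theorem lim_len {τ : ℕ → Task l} (hτ : ∀ a k0, ∃ k ≥ k0, τ k = a)
    (hI : ∀ k, Inv F U P L0 (s k)) (hE : ∀ k, Ext F (s k) (s (k + 1)))
    (hD : ∀ k, TDone F G P g (s k) (s (k + 1)) (τ k)) {j : Fin l} (hj : j ∈ P) (r : ℕ) :
    ∃ k, r ≤ ((s k).p j).length := by
  induction r with
  | zero => exact ⟨0, Nat.zero_le _⟩
  | succ r ih =>
    obtain ⟨k0, h0⟩ := ih
    obtain ⟨k, hk, h1⟩ := hτ (Sum.inl j) k0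
    have h2 := hD k
    rw [h1] at h2
    have h3 : ((s k).p j).length < ((s (k + 1)).p j).length := h2 hj
    have h5 : ((s k0).p j).length ≤ ((s k).p j).length := by
      have := (lim_t hI hE j hk).1.2.1
      rwa [sets_length] at this
    exact ⟨k + 1, by omega⟩

theorem fam_least {p : PL} (hp : Fam (sets p)) {i i' : ℕ} (h : i < i') (hi' : i' < p.length) :
    ∃ a ∈ pc p i, ∀ b ∈ pc p i', a < b := by
  have h1 : i < (sets p).length := by rw [sets_length]; omega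
  have h2 : i' < (sets p).length := by rw [sets_length]; omega
  have h3 := (List.pairwise_iff_getElem.1 hp.2 i i' h1 h2 h).2
  rwa [sets_getElem, sets_getElem] at h3

theorem lim_part {τ : ℕ → Task l} (hτ : ∀ a k0, ∃ k ≥ k0, τ k = a)
    (hI : ∀ k, Inv F U P L0 (s k)) (hE : ∀ k, Ext F (s k) (s (k + 1)))
    (hD : ∀ k, TDone F G P g (s k) (s (k + 1)) (τ k)) {j : Fin l} (hj : j ∈ P) :
    InfPart (xj s j) := by
  refine ⟨fun n i hi => ?_, fun i => ?_⟩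
  · obtain ⟨i', hi'⟩ : ∃ i', xj s j n = i' + 1 := ⟨xj s j n - 1, by omega⟩
    obtain ⟨hik, hn⟩ := lim_at hI hE j (n + 1)
      (lt_of_lt_of_le (Nat.lt_succ_self n) (lim_M hE (n + 1))) hi'
    cases i with
    | zero => exact ⟨0, ((hI (n + 1)).hb j _ hik n hn).1, lim_zero hI j⟩
    | succ i =>
      have h1 : i < i' := by omega
      obtain ⟨a, ha, hab⟩ := fam_least ((hI (n + 1)).hF j) h1 hik
      exact ⟨a, hab n hn, lim_get hI hE j (n + 1) (h1.trans hik) ha⟩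
  · cases i with
    | zero => exact ⟨0, lim_zero hI j⟩
    | succ i =>
      obtain ⟨k, hk⟩ := lim_len hτ hI hE hD hj (i + 1)
      obtain ⟨n, hn⟩ := ((hI k).hF j).1 _ (pc_mem (show i < ((s k).p j).length from hk))
      exact ⟨n, lim_get hI hE j k hk hn⟩

theorem lim_homog (hBP : ∀ R, Blk R → (∀ i, ∀ n ∈ R i, 0 < n) → BP c R (G R) (U R))
    {τ : ℕ → Task l} (hτ : ∀ a k0, ∃ k ≥ k0, τ k = a)
    (hI : ∀ k, Inv F U P L0 (s k)) (hE : ∀ k, Ext F (s k) (s (k + 1)))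
    (hD : ∀ k, TDone F G P g (s k) (s (k + 1)) (τ k)) {j : Fin l} (hj : j ∈ P) :
    Homog 2 c (xj s j) j := by
  classical
  refine ⟨lim_part hτ hI hE hD hj, fun y hy hyx => ?_⟩
  have hy0 : y 0 = 0 := by
    by_contra h
    obtain ⟨m, hm, -⟩ := hy.1 0 0 (Nat.pos_of_ne_zero h)
    exact Nat.not_lt_zero m hm
  have hMk : ∀ n, n < (s (n + 1)).M := fun n =>
    lt_of_lt_of_le (Nat.lt_succ_self n) (lim_M hE (n + 1))
  have hMm : ∀ {k k' : ℕ}, k ≤ k' → (s k).M ≤ (s k').M := by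
    intro k k' h
    rcases h.lt_or_eq with h | h
    · exact (lim_ext hI hE h).1.le
    · rw [h]
  have hex : ∃ n, y n = 1 := hy.2.2 1 (by norm_num)
  obtain ⟨n1, hn1, hmin⟩ : ∃ n1, y n1 = 1 ∧ ∀ m < n1, y m ≠ 1 :=
    ⟨Nat.find hex, Nat.find_spec hex, fun m hm => Nat.find_min hex hm⟩
  have hx1 : ∀ n, y n = 1 → ∃ i, xj s j n = i + 1 := by
    intro n h1
    by_contra h2
    have h3 : xj s j n = 0 := by
      by_contra h4
      exact h2 ⟨xj s j n - 1, by omega⟩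
    have h4 := hyx n 0 (by rw [h3, lim_zero hI j])
    rw [h1, hy0] at h4
    exact one_ne_zero h4
  obtain ⟨i0, hi0⟩ := hx1 n1 hn1
  obtain ⟨hil, hin⟩ := lim_at hI hE j (n1 + 1) (hMk n1) hi0
  have hpc : ∀ k i, i < ((s k).p j).length → ∀ n ∈ pc ((s k).p j) i, ∀ m ∈ pc ((s k).p j) i,
      y n = y m := fun k i hi n hn m hm =>
    hyx n m (by rw [lim_get hI hE j k hi hn, lim_get hI hE j k hi hm])
  have hge : ∀ k ≥ n1 + 1, ∀ i < ((s k).p j).length, (∃ n ∈ pc ((s k).p j) i, y n = 1) → i0 ≤ i := by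
    intro k hk i hi h1
    obtain ⟨n, hn, hn1'⟩ := h1
    by_contra h2
    obtain ⟨hil', hin'⟩ := lim_at hI hE j k (lt_of_lt_of_le (hMk n1) (hMm hk)) hi0
    obtain ⟨a, ha, hab⟩ := fam_least ((hI k).hF j) (not_le.1 h2) hil'
    refine hmin a (hab n1 hin') ?_
    rw [hpc k i hi a ha n hn]
    exact hn1'
  have hlev : ∀ k ≥ n1 + 1, i0 < ((s k).p j).length ∧
      Rv F (s k).L (tg ((s k).p j) i0) = Rv F (s (n1 + 1)).L (tg ((s (n1 + 1)).p j) i0) := by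
    intro k hk
    have h1 := lim_t hI hE j hk
    refine ⟨lt_of_lt_of_le hil (by have := h1.1.2.1; rwa [sets_length] at this), ?_⟩
    rw [h1.2.1 i0 hil]
    obtain ⟨L1, hL1⟩ := lim_L hI hE hk
    rw [hL1]
    exact rv_low F L1 _ ((hI (n1 + 1)).hh j i0 hil)
  have key : ∀ k ≥ n1 + 1, ∃ I : Finset ℕ, (∀ i ∈ I, i < ((s k).p j).length) ∧ i0 ∈ I ∧
      (∀ i ∈ I, i0 ≤ i) ∧ ∀ n, n ∈ YY ((s k).p j) I ↔ n < (s k).M ∧ y n = 1 := by
    intro k hk
    obtain ⟨hil', hin'⟩ := lim_at hI hE j k (lt_of_lt_of_le (hMk n1) (hMm hk)) hi0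
    refine ⟨(Finset.range ((s k).p j).length).filter (fun i => ∃ n ∈ pc ((s k).p j) i, y n = 1),
      fun i hi => ?_, ?_, fun i hi => ?_, fun n => ?_⟩
    · exact Finset.mem_range.1 (Finset.mem_filter.1 hi).1
    · exact Finset.mem_filter.2 ⟨Finset.mem_range.2 hil', n1, hin', hn1⟩
    · obtain ⟨h1, h2⟩ := Finset.mem_filter.1 hi
      exact hge k hk i (Finset.mem_range.1 h1) h2
    · unfold YY
      rw [Finset.mem_biUnion]
      constructor
      · rintro ⟨i, hi, hn⟩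
        obtain ⟨h1, m, hm, hm1⟩ := Finset.mem_filter.1 hi
        refine ⟨((hI k).hb j i (Finset.mem_range.1 h1) n hn).2, ?_⟩
        rw [hpc k i (Finset.mem_range.1 h1) n hn m hm]
        exact hm1
      · rintro ⟨hn, hn1'⟩
        obtain ⟨i, hi⟩ := hx1 n hn1'
        obtain ⟨h1, h2⟩ := lim_at hI hE j k hn hi
        exact ⟨i, Finset.mem_filter.2 ⟨Finset.mem_range.2 h1, n, h2, hn1'⟩, h2⟩
  refine (hBP (Rv F (s (n1 + 1)).L (tg ((s (n1 + 1)).p j) i0)) ((rv_tow F _).blk _)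
    ((rv_tow F _).pos _)).lim y j hy (fun n hn => ?_) (fun s' => ?_) ?_
  · obtain ⟨i, hi⟩ := hx1 n hn
    obtain ⟨k, hk1, hk2⟩ : ∃ k, n1 + 1 ≤ k ∧ n + 1 ≤ k := ⟨max (n1 + 1) (n + 1), le_max_left _ _,
      le_max_right _ _⟩
    obtain ⟨h1, h2⟩ := lim_at hI hE j k (lt_of_lt_of_le (hMk n) (hMm hk2)) hi
    have h3 : i0 ≤ i := hge k hk1 i h1 ⟨n, h2, hn⟩
    have h4 := (rv_tow F (s k).L).ub ((hI k).hm j i0 i h3 h1) ((hI k).hu j i h1)
    rw [(hlev k hk1).2] at h4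
    obtain ⟨⟨D, hD'⟩, -⟩ := h4
    have h5 := h2
    rw [hD', mem_RU] at h5
    obtain ⟨a, ha, hna⟩ := h5
    refine ⟨a, hna, fun m hm => ?_⟩
    have h6 : m ∈ pc ((s k).p j) i := by
      rw [hD', mem_RU]
      exact ⟨a, ha, hm⟩
    rw [hpc k i h1 m h6 n h2]
    exact hn
  · obtain ⟨k, hk, hk1⟩ := hτ (Sum.inr (Sum.inr s')) (n1 + 1)
    have h1 := hD k
    rw [hk1] at h1
    have h2 : Met F G (s (k + 1)) s' := h1
    obtain ⟨I, hI1, hI2, hI3, hI4⟩ := key (k + 1) (by omega)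
    refine ⟨YY ((s (k + 1)).p j) I, (s (k + 1)).M, hI4, ?_⟩
    have h3 := h2 j I hI1 i0 hI2 hI3
    rwa [(hlev (k + 1) (by omega)).2] at h3
  · obtain ⟨I, hI1, hI2, hI3, hI4⟩ := key (n1 + 1) le_rfl
    exact ⟨YY ((s (n1 + 1)).p j) I, (s (n1 + 1)).M, hI4, (hI (n1 + 1)).hc j hj I hI1 i0 hI2 hI3⟩

theorem FV_unique {G : List ℕ → ℕ → Option ℕ} {x : ℕ → ℕ} {t n v n' v' : ℕ} (h : FV G x t n v)
    (h' : FV G x t n' v') : v = v' := by
  have hn : n = n' := by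
    rcases lt_trichotomy n n' with h1 | h1 | h1
    · have := h'.2 n h1
      rw [h.1] at this
      exact absurd this (by simp)
    · exact h1
    · have := h.2 n' h1
      rw [h'.1] at this
      exact absurd this (by simp)
  subst hn
  have := h.1.symm.trans h'.1
  exact Option.some.inj this

theorem lim_main (hBP : ∀ R, Blk R → (∀ i, ∀ n ∈ R i, 0 < n) → BP c R (G R) (U R))
    {τ : ℕ → Task l} (hτ : ∀ a k0, ∃ k ≥ k0, τ k = a)
    (hI : ∀ k, Inv F U P L0 (s k)) (hE : ∀ k, Ext F (s k) (s (k + 1)))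
    (hD : ∀ k, TDone F G P g (s k) (s (k + 1)) (τ k)) : ∃ x j, Homog 2 c x j ∧
      ∀ e, ¬ ∃ h : ℕ → ℕ, (∀ t, Val (F e) x t (h t)) ∧ ∃ t0, ∀ t ≥ t0, g t ≤ h t := by
  by_contra hcon
  have h1 : ∀ j : Fin l, ∃ e t0, ∃ h : ℕ → ℕ, j ∈ P → (∀ t, Val (F e) (xj s j) t (h t)) ∧
      ∀ t ≥ t0, g t ≤ h t := by
    intro j
    by_cases hj : j ∈ P
    · by_contra h2
      refine hcon ⟨xj s j, j, lim_homog hBP hτ hI hE hD hj, ?_⟩
      rintro e ⟨h, h3, t0, h4⟩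
      exact h2 ⟨e, t0, h, fun _ => ⟨h3, h4⟩⟩
    · exact ⟨0, 0, fun _ => 0, fun h => absurd h hj⟩
  choose e t0 h h2 using h1
  obtain ⟨k, -, hk⟩ := hτ (Sum.inr (Sum.inl (e, ∑ j, t0 j))) 0
  have h3 := hD k
  rw [hk] at h3
  obtain ⟨j, hj, h4⟩ : Don F P g (s (k + 1)) e (∑ j, t0 j) := h3
  obtain ⟨hval, hdom⟩ := h2 j hj
  rcases h4 with ⟨t, ht, n, v, hn, hv, hfv⟩ | ⟨t, hdiv⟩
  · have h5 : FV (F (e j)) (xj s j) t n v := by
      refine hfv.congr fun m hm => ?_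
      rw [lim_x hI hE j (k + 1) (lt_of_lt_of_le hm hn)]
    obtain ⟨n', h6⟩ := hval t
    have h7 : v = h j t := FV_unique h5 h6
    have h8 : t0 j ≤ t := (Finset.single_le_sum (f := t0) (fun _ _ => Nat.zero_le _)
      (Finset.mem_univ j)).trans ht
    have h9 := hdom t h8
    omega
  · obtain ⟨n, h6, -⟩ := hval t
    obtain ⟨k', hk', hk2⟩ : ∃ k' ≥ k + 1, n ≤ (s k').M :=
      ⟨max (k + 1) n, le_max_left _ _, (le_max_right _ _).trans (lim_M hE _)⟩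
    have h8 : pre (xj s j) n = pre (wd (sets ((s k').p j))) n :=
      pre_congr fun m hm => lim_x hI hE j k' (lt_of_lt_of_le hm hk2)
    rw [h8, hdiv _ (lim_t hI hE j hk').1 n] at h6
    exact absurd h6 (by simp)

end

/-- Two pieces, Borel colourings. -/
theorem twoB (F : ℕ → List ℕ → ℕ → Option ℕ) : ∃ g : ℕ → ℕ,
    ∀ (l : ℕ) (c : (ℕ → ℕ) → Fin l), Bor 2 c → ∃ x j, Homog 2 c x j ∧
      ∀ e, ¬ ∃ h : ℕ → ℕ, (∀ t, Val (F e) x t (h t)) ∧ ∃ t0, ∀ t ≥ t0, g t ≤ h t := by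
  obtain ⟨g, hg⟩ := exists_g F
  refine ⟨g, fun l c hc => ?_⟩
  have h1 : ∀ R : ℕ → Finset ℕ, ∃ (G : ℕ → Finset ℕ → ℕ → Prop)
      (U : Fin l → Finset ℕ → ℕ → Prop), Blk R → (∀ i, ∀ n ∈ R i, 0 < n) → BP c R G U := by
    intro R
    by_cases hR : Blk R ∧ ∀ i, ∀ n ∈ R i, 0 < n
    · obtain ⟨G, U, h⟩ := bp hc hR.1 hR.2
      exact ⟨G, U, fun _ _ => h⟩
    · exact ⟨fun _ _ _ => True, fun _ _ _ => True, fun h h' => absurd ⟨h, h'⟩ hR⟩
  choose G U hBP using h1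
  obtain ⟨L0, P, hP⟩ := dense_val (Pers F U)
  obtain ⟨τ0, hτ0⟩ := exists_surjective_nat (Task l)
  have hstep : ∀ (a : Task l) (S : {S : St l // Inv F U P L0 S}),
      ∃ S' : {S : St l // Inv F U P L0 S}, Ext F S.1 S'.1 ∧ TDone F G P g S.1 S'.1 a := by
    rintro (j | (⟨e, t0⟩ | s')) ⟨S, hS⟩
    · by_cases hj : j ∈ P
      · obtain ⟨S', h1, h2, h3⟩ := step_piece hBP hP hS hj
        exact ⟨⟨S', h1⟩, h2, fun _ => h3⟩
      · obtain ⟨S', h1, h2, -⟩ := ext_meet hBP hS 0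
        exact ⟨⟨S', h1⟩, h2, fun h => absurd h hj⟩
    · obtain ⟨S', h1, h2, h3⟩ := step_req hBP hg hP hS e t0
      exact ⟨⟨S', h1⟩, h2, h3⟩
    · obtain ⟨S', h1, h2, h3⟩ := ext_meet hBP hS s'
      exact ⟨⟨S', h1⟩, h2, h3⟩
  choose nx hnx1 hnx2 using hstep
  have h0 : Inv F U P L0 (⟨L0, 0, 0, fun _ => []⟩ : St l) := by
    refine ⟨⟨[], rfl⟩, fun i _ m _ => Nat.zero_le m, fun j => Fam.nil,
      fun j i hi => absurd hi (Nat.not_lt_zero i), fun j i i' _ hi => absurd hi (Nat.not_lt_zero i'),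
      fun j i hi => absurd hi (Nat.not_lt_zero i), fun j i hi => absurd hi (Nat.not_lt_zero i),
      fun j _ I hI i0 hi0 _ => absurd (hI i0 hi0) (Nat.not_lt_zero i0)⟩
  let τ : ℕ → Task l := fun k => τ0 (Nat.unpair k).1
  let s : ℕ → {S : St l // Inv F U P L0 S} := fun k =>
    Nat.rec ⟨_, h0⟩ (fun k S => nx (τ k) S) k
  refine lim_main hBP (s := fun k => (s k).1) (τ := τ) (P := P) (L0 := L0) ?_
    (fun k => (s k).2) (fun k => ?_) (fun k => ?_)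
  · intro a k0
    obtain ⟨i, hi⟩ := hτ0 a
    refine ⟨Nat.pair i k0, Nat.right_le_pair i k0, ?_⟩
    show τ0 (Nat.unpair (Nat.pair i k0)).1 = a
    rw [Nat.unpair_pair]
    exact hi
  · exact hnx1 (τ k) (s k)
  · exact hnx2 (τ k) (s k)

end Pool.Agent.DB
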