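import Pool.Agent.H.MP_b2838e_lc.B.Tw

/-!
# Module Nd: divergence in the new reservoir

Proof. Let `j`, `E` be from `hNo`, `R' = fun i => RU (Q h) (E i) = Q' (h + 1)`. Suppose
`UExt Q' (h + 1) M' (p j) p'` and the functional gives an answer for some initial segment of `wd p'`; take
the shortest (`Nat.find`), so `FV (F (e j)) (wd p') t n v`. The sets of `p'.drop (p j).length` are of the form
`RU R' D`, so the list is `q.map (RU R')` for a list `q`, and `Fam q` follows from `Fam p'`: the sets of `q` are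
nonempty and disjoint as their images are (the blocks are nonempty), and if `n` is the least
element of `RU R' A` below all elements of `RU R' B`, `n ∈ R' a`, then `a < b` for all `b ∈ B` (otherwise
`b ≤ a`; `b ≠ a` by disjointness; `Blk.lt`). Now `q.map (RU R') = (q.map (RU E)).map (RU (Q h))` (`RU_RU`), and
`UExt Q h M (p j) p'`: for the old pieces `tg (p j) i ≤ h`, so `Q' (tg (p j) i) = Q (tg (p j) i)`; use
`UB.mono` with `M ≤ M'` and `UB.of_sub`. With a large `B` (above all elements of the sets in `p'`, `n`, `v`) this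
is `W .. (q.map (RU E)) B`, against `hNo`.
-/

namespace Pool.Agent.DB

open Pool.Agent.DR

/-- A family of unions of blocks comes from a family of sets of indices. -/
private theorem Nd_fam {R : ℕ → Finset ℕ} (hR : Blk R) {p : List (Finset ℕ)} (hp : Fam p)
    (h : ∀ D ∈ p, ∃ A, D = RU R A) : ∃ q, Fam q ∧ p = q.map (RU R) := by
  classical
  obtain ⟨g, hg⟩ : ∃ g : Finset ℕ → Finset ℕ, ∀ D ∈ p, D = RU R (g D) := by
    refine ⟨fun D => if h1 : ∃ A, D = RU R A then h1.choose else ∅, fun D hD => ?_⟩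
    have h1 := h D hD
    dsimp only
    rw [dif_pos h1]
    exact h1.choose_spec
  have hmem : ∀ D ∈ p, ∀ i ∈ g D, ∀ n ∈ R i, n ∈ D := fun D hD i hi n hn => by
    rw [hg D hD]
    exact mem_RU.2 ⟨i, hi, hn⟩
  refine ⟨p.map g, ⟨fun A hA => ?_, ?_⟩, ?_⟩
  · obtain ⟨D, hD, rfl⟩ := List.mem_map.1 hA
    obtain ⟨n, hn⟩ := hp.1 D hD
    rw [hg D hD] at hn
    obtain ⟨i, hi, -⟩ := mem_RU.1 hn
    exact ⟨i, hi⟩
  · rw [List.pairwise_map]
    refine hp.2.imp_of_mem ?_
    rintro A B hA hB ⟨h1, a, ha, h2⟩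
    have hdis : ∀ i ∈ g A, i ∉ g B := fun i hi hi' => by
      obtain ⟨n, hn⟩ := hR.1 i
      exact (Finset.disjoint_left.1 h1) (hmem A hA i hi n hn) (hmem B hB i hi' n hn)
    refine ⟨Finset.disjoint_left.2 fun i hi hi' => hdis i hi hi', ?_⟩
    have ha' := ha
    rw [hg A hA] at ha'
    obtain ⟨i, hi, hai⟩ := mem_RU.1 ha'
    refine ⟨i, hi, fun k hk => ?_⟩
    rcases lt_trichotomy i k with h3 | h3 | h3
    · exact h3
    · rw [← h3] at hk
      exact absurd hk (hdis i hi)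
    · obtain ⟨m, hm⟩ := hR.1 k
      exact absurd (h2 m (hmem B hB k hk m hm)) (not_lt.2 (hR.lt h3 m hm a hai).le)
  · rw [List.map_map]
    conv_lhs => rw [← List.map_id p]
    exact List.map_congr_left fun D hD => hg D hD

theorem no_div {F : ℕ → List ℕ → ℕ → Option ℕ} {l : ℕ} {P : Finset (Fin l)} {p : Fin l → PL}
    {e : Fin l → ℕ} {N M t : ℕ} {Q : ℕ → ℕ → Finset ℕ} {h : ℕ} {R' : ℕ → Finset ℕ}
    (hNo : No F P p e N M t Q h R') (hQ : Tow Q) {Q' : ℕ → ℕ → Finset ℕ} (hQ' : Tow Q')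
    (hlow : ∀ r ≤ h, Q' r = Q r) (hR : Q' (h + 1) = R')
    (ht : ∀ j, ∀ i < (p j).length, tg (p j) i ≤ h) {M' : ℕ} (hM : M ≤ M') :
    ∃ j ∈ P, ∀ p', UExt Q' (h + 1) M' (p j) p' → ∀ n, F (e j) (pre (wd p') n) t = none := by
  classical
  obtain ⟨E, hE, -, hRE, j, hj, hW⟩ := hNo
  refine ⟨j, hj, fun p' hp' => ?_⟩
  by_contra hcon
  have hex : ∃ n, F (e j) (pre (wd p') n) t ≠ none := by
    by_contra h1
    exact hcon fun n => by
      by_contra h2
      exact h1 ⟨n, h2⟩
  obtain ⟨v, hv⟩ := Option.ne_none_iff_exists'.1 (Nat.find_spec hex)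
  have hFV : FV (F (e j)) (wd p') t (Nat.find hex) v :=
    ⟨hv, fun m hm => not_not.1 (Nat.find_min hex hm)⟩
  obtain ⟨hFam, hlen, hold, hnew⟩ := hp'
  have hRB : Blk R' := by
    rw [← hR]
    exact hQ'.blk (h + 1)
  have hdr : ∀ D ∈ p'.drop (p j).length, ∃ A, D = RU R' A := by
    intro D hD
    obtain ⟨i, hi, hiD⟩ := List.mem_iff_getElem.1 hD
    rw [List.getElem_drop] at hiD
    have hi' : (p j).length + i < p'.length := by
      rw [List.length_drop] at hi
      omega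
    have h1 := (hnew ((p j).length + i) hi' (Nat.le_add_right _ _)).1
    rw [hR, List.getD_eq_getElem _ _ hi', hiD] at h1
    exact h1
  have hdF : Fam (p'.drop (p j).length) :=
    ⟨fun D hD => hFam.1 D (List.mem_of_mem_drop hD), hFam.2.sublist (List.drop_sublist _ _)⟩
  obtain ⟨q, hq, hqe⟩ := Nd_fam hRB hdF hdr
  refine hW q hq (Nat.find hex + v + (p'.toFinset.biUnion id).sup (fun n => n + 1))
    ⟨p', ⟨hFam, hlen, fun i hi => ?_, fun i hi hi' => ?_⟩, ?_, fun x hx n hn => ?_,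
      Nat.find hex, v, by omega, by omega, hFV⟩
  · obtain ⟨X, hX, h1⟩ := hold i hi
    rw [hlow _ (ht j i hi)] at hX
    exact ⟨X, hX.mono hM, h1⟩
  · have h1 := hnew i hi hi'
    rw [hR, hRE] at h1
    exact h1.of_sub.mono hM
  · rw [hqe, List.map_map, hRE]
    exact List.map_congr_left fun D _ => RU_RU (Q h) E D
  · have h1 : n + 1 ≤ (p'.toFinset.biUnion id).sup (fun n => n + 1) :=
      Finset.le_sup (f := fun n => n + 1)
        (Finset.mem_biUnion.2 ⟨x, List.mem_toFinset.2 hx, hn⟩)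
    omega

end Pool.Agent.DB
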