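import Pool.Agent.H.MP_b2838e_lc.B.Sv

/-!
# Module Ps: persistent labels

`dense_val`: suppose not. By induction over a finite set of values `T` there is `L` such that
`f (L'' ++ L) ∉ T` for all `L''`: in the step take `L' ++ L` with `L'` a witness for `L` and the new value.
For `T` the set of all values this is a contradiction.

`exists_M0`: for every `j` which is not persistent there is a bound `M0` as in the definition; take the
sum of the bounds.
-/

namespace Pool.Agent.DB

open Pool.Agent.DR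

theorem dense_val {α β : Type} [Finite β] (f : List α → β) :
    ∃ L0 b, ∀ L', ∃ L'', f (L'' ++ (L' ++ L0)) = b := by
  classical
  by_contra hcon
  push Not at hcon
  have key : ∀ T : Finset β, ∃ L : List α, ∀ L'', f (L'' ++ L) ∉ T := by
    intro T
    induction T using Finset.induction_on with
    | empty => exact ⟨[], fun L'' => Finset.notMem_empty _⟩
    | insert b T hb ih =>
      obtain ⟨L, hL⟩ := ih
      obtain ⟨L', hL'⟩ := hcon L b
      refine ⟨L' ++ L, fun L'' hmem => ?_⟩
      rcases Finset.mem_insert.mp hmem with h | h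
      · exact hL' L'' h
      · rw [← List.append_assoc] at h
        exact hL _ h
  have : Fintype β := Fintype.ofFinite β
  obtain ⟨L, hL⟩ := key Finset.univ
  exact hL [] (Finset.mem_univ _)

open Classical in
/-- The labels which occur arbitrarily late. -/
noncomputable def Pers (F : ℕ → List ℕ → ℕ → Option ℕ) {l : ℕ}
    (U : (ℕ → Finset ℕ) → Fin l → Finset ℕ → ℕ → Prop) (L : List (Par × ℕ)) : Finset (Fin l) :=
  Finset.univ.filter (fun j => ∀ M0 : ℕ, ∃ (A : Finset ℕ) (m : ℕ), A.Nonempty ∧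
    UB (Rv F L L.length) M0 A ∧ (∀ n ∈ A, n < m) ∧ U (Rv F L L.length) j A m)

theorem mem_pers {F : ℕ → List ℕ → ℕ → Option ℕ} {l : ℕ}
    {U : (ℕ → Finset ℕ) → Fin l → Finset ℕ → ℕ → Prop} {L : List (Par × ℕ)} {j : Fin l} :
    j ∈ Pers F U L ↔ ∀ M0 : ℕ, ∃ (A : Finset ℕ) (m : ℕ), A.Nonempty ∧
      UB (Rv F L L.length) M0 A ∧ (∀ n ∈ A, n < m) ∧ U (Rv F L L.length) j A m := by
  classical
  unfold Pers
  rw [Finset.mem_filter]
  exact ⟨fun h => h.2, fun h => ⟨Finset.mem_univ j, h⟩⟩

theorem exists_M0 (F : ℕ → List ℕ → ℕ → Option ℕ) {l : ℕ}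
    (U : (ℕ → Finset ℕ) → Fin l → Finset ℕ → ℕ → Prop) (L : List (Par × ℕ)) :
    ∃ M0, ∀ A m j, A.Nonempty → UB (Rv F L L.length) M0 A → (∀ n ∈ A, n < m) →
      U (Rv F L L.length) j A m → j ∈ Pers F U L := by
  classical
  have h1 : ∀ j : Fin l, ∃ M0 : ℕ, j ∉ Pers F U L → ∀ (A : Finset ℕ) (m : ℕ), A.Nonempty →
      UB (Rv F L L.length) M0 A → (∀ n ∈ A, n < m) → ¬ U (Rv F L L.length) j A m := by
    intro j
    by_cases hj : j ∈ Pers F U L
    · exact ⟨0, fun h => absurd hj h⟩
    · have h2 := hj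
      rw [mem_pers] at h2
      push Not at h2
      obtain ⟨M0, hM0⟩ := h2
      exact ⟨M0, fun _ A m hA hB hm => hM0 A m hA hB hm⟩
  choose M hM using h1
  refine ⟨∑ j, M j, fun A m j hA hB hm hU => ?_⟩
  by_contra hj
  refine hM j hj A m hA ?_ hm hU
  have h3 : M j ≤ ∑ j, M j := Finset.single_le_sum (fun _ _ => Nat.zero_le _) (Finset.mem_univ j)
  exact ⟨hB.1, fun n hn => h3.trans (hB.2 n hn)⟩

end Pool.Agent.DB
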