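import Pool.Agent.H.MP_b2838e_lc.B.Sv

/-!
# Module Tr: composition of extensions

Proof. Old pieces (`i < (S.p j).length`): they get the additional sets `X ∪ X'`; `X'` is a union of
blocks of `Rv F S'.L (tg (S'.p j) i)`, and `tg (S'.p j) i = tg (S.p j) i ≤ S.L.length` (`hS.hh`), so this
reservoir is `Rv F S.L (tg (S.p j) i)` (`rv_low`, `S'.L = L1 ++ S.L`); `UB.mono`, `UB.union`. New pieces: if
`i < (S'.p j).length`, the piece of `S''` is the one of `S'` (a union of blocks of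
`Rv F S.L S.L.length` by `hE`) and a union of blocks of the level
`tg (S'.p j) i ≥ S.L.length` of `Rv F S'.L` (`Tow.ub`, `rv_tow`, `rv_low`). If `i ≥ (S'.p j).length`, it is a union of
blocks of `Rv F S'.L S'.L.length`, so of `Rv F S'.L S.L.length = Rv F S.L S.L.length`. The levels: clear
(`tg (S''.p j) i ≥ S'.L.length ≥ S.L.length`). `sets_getD`, `sets_length` for `sets`.
-/

namespace Pool.Agent.DB

open Pool.Agent.DR

theorem Ext.trans {F : ℕ → List ℕ → ℕ → Option ℕ} {l : ℕ}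
    {U : (ℕ → Finset ℕ) → Fin l → Finset ℕ → ℕ → Prop} {P : Finset (Fin l)} {L0 : List (Par × ℕ)}
    {S S' S'' : St l} (hS : Inv F U P L0 S) (hE : Ext F S S') (hE' : Ext F S' S'') : Ext F S S'' := by
  obtain ⟨m1, ⟨L1, e1⟩, t1⟩ := hE
  obtain ⟨m2, ⟨L2, e2⟩, t2⟩ := hE'
  have hh : S.L.length ≤ S'.L.length := by
    rw [e1, List.length_append]
    exact Nat.le_add_left _ _
  have hlow : ∀ r ≤ S.L.length, Rv F S'.L r = Rv F S.L r := by
    intro r hr
    rw [e1]
    exact rv_low F L1 S.L hr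
  have htow := rv_tow F S'.L
  refine ⟨m1.trans m2, ⟨L2 ++ L1, by rw [e2, e1, List.append_assoc]⟩, fun j => ?_⟩
  obtain ⟨⟨-, b1, c1, d1⟩, f1, g1⟩ := t1 j
  obtain ⟨⟨a2, b2, c2, d2⟩, f2, g2⟩ := t2 j
  have hhj := hS.hh j
  rw [sets_length] at b1 b2 d1 d2
  refine ⟨⟨a2, ?_, ?_, ?_⟩, ?_, ?_⟩
  · rw [sets_length]
    exact b1.trans b2
  · intro i hi
    obtain ⟨X, h1, h2⟩ := c1 i hi
    obtain ⟨X', h3, h4⟩ := c2 i (lt_of_lt_of_le hi b1)
    rw [sets_getD] at h2 h4
    rw [f1 i hi, hlow _ (hhj i hi)] at h3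
    refine ⟨X ∪ X', h1.union (h3.mono m1.le), ?_⟩
    rw [sets_getD, h4, h2, Finset.union_assoc]
  · intro i hi hi2
    rw [sets_length] at hi
    rw [sets_getD]
    rcases lt_or_ge i (S'.p j).length with h0 | h0
    · obtain ⟨X', h3, h4⟩ := c2 i h0
      rw [sets_getD] at h4
      have h5 := d1 i h0 hi2
      rw [sets_getD] at h5
      have h6 := htow.ub (g1 i h0 hi2) h3
      rw [hlow _ le_rfl] at h6
      rw [h4]
      exact h5.union (h6.mono m1.le)
    · have h3 := d2 i hi h0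
      rw [sets_getD] at h3
      have h6 := htow.ub hh h3
      rw [hlow _ le_rfl] at h6
      exact h6.mono m1.le
  · intro i hi
    rw [f2 i (lt_of_lt_of_le hi b1), f1 i hi]
  · intro i hi hi2
    rcases lt_or_ge i (S'.p j).length with h0 | h0
    · rw [f2 i h0]
      exact g1 i h0 hi2
    · exact hh.trans (g2 i hi h0)

end Pool.Agent.DB
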