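import Pool.Agent.H.MP_b2838e_lc.B.Iv
import Pool.Agent.H.MP_b2838e_lc.B.Lb

/-!
# Module Ye: the answer yes

Proof. Let `R = Rv F S.L S.L.length`, `h = S.L.length`, `K' = max K (N + 1)`, `B'` at least `B`, `M0`, `S.M` and above
all elements of `R a`, `a < K'`. `labels` (with `K'`, `B'`; `hN`: `Blk.le`, `M0 ≤ N`) gives `f`, `X`, `M'`. Apply `hy` to
`f`: `j ∈ P`, `q`, `W`: `p'` with `UExt (Rv F S.L) h S.M (S.p j) p'`, `p'.drop len = q.map (RU R)`
(`len = (S.p j).length`), all elements `< B`, and `FV .. (wd p') t n v`, `n ≤ B`, `v ≤ B`. Let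
`q' = q.map (fun D => (D.biUnion (fun a => R a ∪ X a), h))`,
`S'.p = Function.update S.p j (mkl len (fun i => p'.getD i ∅) (tg (S.p j)) ++ q')`, `S'.L = S.L`,
`S'.M = S.M + 1 + M' + B'`, `S'.N = S'.M`.

The list `sets (S'.p j)` is `p'` with the additional sets `∅` for `i < len` and
`(q.getD (i - len) ∅).biUnion X` for `i ≥ len`, with elements `≥ B'`; these are disjoint, as the members of `q`
are disjoint and the `X a` are: `fam_fill` (with `M = B'`) gives `Fam`, and `wd_agree` (with `M = B'`) gives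
the functional. `Ext`: old pieces by `UExt`; new ones are unions of blocks: `p'.getD i ∅` is (`UExt`), the `X a`
are. `Inv`: `inv_ext`. `hnew` for `j' ≠ j` is vacuous. For `j` let `I` be a nonempty set of new numbers,
`V` the union of the `q.getD (i - len) ∅`, `i ∈ I`. Then
`YY (S'.p j) I = V.biUnion (fun a => R a ∪ X a)`, `IsUn q V` (disjointness in `Fam q`), so
`f V = j` (`Mono`) and `U R j (YY ..) M'`; `BP.umo` with `X = ∅` from `M'` to `S'.M`.
-/

namespace Pool.Agent.DB

open Pool.Agent.DR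

/-- A bound for the elements of the first blocks. -/
private theorem Ye_bd (R : ℕ → Finset ℕ) (K : ℕ) : ∃ B, ∀ a < K, ∀ n ∈ R a, n < B := by
  refine ⟨((Finset.range K).biUnion R).sup id + 1, fun a ha n hn => Nat.lt_succ_of_le ?_⟩
  exact Finset.le_sup (f := id) (Finset.mem_biUnion.2 ⟨a, Finset.mem_range.2 ha, hn⟩)

private theorem Ye_getD_mem {q : List (Finset ℕ)} {i : ℕ} (hi : i < q.length) :
    q.getD i ∅ ∈ q := by
  rw [List.getD_eq_getElem _ _ hi]
  exact List.getElem_mem hi

/-- Different members are disjoint. -/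
private theorem Ye_disj {q : List (Finset ℕ)} (hq : Fam q) {i k : ℕ} (hi : i < q.length)
    (hk : k < q.length) (hik : i ≠ k) : Disjoint (q.getD i ∅) (q.getD k ∅) := by
  rw [List.getD_eq_getElem _ _ hi, List.getD_eq_getElem _ _ hk]
  rcases lt_or_gt_of_ne hik with h | h
  · exact (List.pairwise_iff_getElem.1 hq.2 i k hi hk h).1
  · exact (List.pairwise_iff_getElem.1 hq.2 k i hk hi h).1.symm

/-- The union of the members with the numbers in `I`. -/
private theorem Ye_isUn {q : List (Finset ℕ)} (hq : Fam q) {n : ℕ} {I : Finset ℕ}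
    (hI : I.Nonempty) (h : ∀ i ∈ I, n ≤ i ∧ i < n + q.length) :
    IsUn q (I.biUnion fun i => q.getD (i - n) ∅) := by
  have hlt : ∀ i ∈ I, i - n < q.length := fun i hi => by
    have := h i hi
    omega
  refine ⟨?_, fun v hv => ?_, fun D hD a ha b hb haV => ?_⟩
  · obtain ⟨i, hi⟩ := hI
    obtain ⟨a, ha⟩ := hq.1 _ (Ye_getD_mem (hlt i hi))
    exact ⟨a, Finset.mem_biUnion.2 ⟨i, hi, ha⟩⟩
  · obtain ⟨i, hi, hv⟩ := Finset.mem_biUnion.1 hv
    exact ⟨_, Ye_getD_mem (hlt i hi), hv⟩
  · obtain ⟨i, hi, ha'⟩ := Finset.mem_biUnion.1 haV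
    obtain ⟨k, hk, rfl⟩ := List.mem_iff_getElem.1 hD
    have h1 : k = i - n := by
      by_contra hne
      have h2 := Ye_disj hq hk (hlt i hi) hne
      rw [List.getD_eq_getElem _ _ hk] at h2
      exact Finset.disjoint_left.1 h2 ha ha'
    refine Finset.mem_biUnion.2 ⟨i, hi, ?_⟩
    rw [← h1, List.getD_eq_getElem _ _ hk]
    exact hb

private theorem Ye_refl {F : ℕ → List ℕ → ℕ → Option ℕ} {l : ℕ}
    {U : (ℕ → Finset ℕ) → Fin l → Finset ℕ → ℕ → Prop} {P : Finset (Fin l)}
    {L0 : List (Par × ℕ)} {S : St l} (hS : Inv F U P L0 S) (j : Fin l) :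
    TExt (Rv F S.L) S.L.length S.M (S.p j) (S.p j) := by
  refine ⟨⟨hS.hF j, by rw [sets_length], fun i _ => ⟨∅, UB.empty _ _, ?_⟩, fun i hi h => ?_⟩,
    fun _ _ => rfl, fun i hi h => ?_⟩
  · rw [sets_getD, Finset.union_empty]
  · rw [sets_length] at hi
    omega
  · omega

theorem ext_yes {F : ℕ → List ℕ → ℕ → Option ℕ} {l : ℕ} {c : (ℕ → ℕ) → Fin l}
    {G : (ℕ → Finset ℕ) → ℕ → Finset ℕ → ℕ → Prop}
    {U : (ℕ → Finset ℕ) → Fin l → Finset ℕ → ℕ → Prop}
    (hBP : ∀ R, Blk R → (∀ i, ∀ n ∈ R i, 0 < n) → BP c R (G R) (U R))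
    {P : Finset (Fin l)} {L0 : List (Par × ℕ)} {S : St l} (hS : Inv F U P L0 S)
    {e : Fin l → ℕ} {M0 N K B t : ℕ}
    (hP : ∀ A m j, A.Nonempty → UB (Rv F S.L S.L.length) M0 A → (∀ n ∈ A, n < m) →
      U (Rv F S.L S.L.length) j A m → j ∈ P) (hN : M0 ≤ N)
    (hy : Yes F P S.p e N S.M t (Rv F S.L) S.L.length K B) :
    ∃ S' : St l, Inv F U P L0 S' ∧ Ext F S S' ∧
      ∃ j ∈ P, ∃ n v, n ≤ S'.M ∧ v ≤ B ∧ FV (F (e j)) (wd (sets (S'.p j))) t n v := by
  classical
  have hT := rv_tow F S.L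
  obtain ⟨R, hR⟩ : ∃ R, R = Rv F S.L S.L.length := ⟨_, rfl⟩
  have hRb : Blk R := by
    rw [hR]
    exact hT.blk _
  have hR0 : ∀ i, ∀ n ∈ R i, 0 < n := by
    rw [hR]
    exact hT.pos _
  have hBR := hBP R hRb hR0
  rw [← hR] at hP
  obtain ⟨B1, hB1⟩ := Ye_bd R (max K (N + 1))
  obtain ⟨B', hB'⟩ : ∃ B', B' = B + M0 + S.M + B1 := ⟨_, rfl⟩
  obtain ⟨f, X, M', hBM, hX1, hX2, hfP, hfU⟩ := labels (K := max K (N + 1)) (B := B') hRb hR0
    hBR hP (fun a ha n hn => (hN.trans ha).trans (hRb.le a n hn))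
    (fun a ha n hn => (hB1 a ha n hn).trans_le (by omega)) (by omega)
    (lt_of_lt_of_le (Nat.lt_succ_self N) (le_max_right _ _))
  obtain ⟨j, hj, q, hq, hqN, hmono, p', ⟨hF', hlen, hold, hnw⟩, hdrop, hpB, n, v, hn, hv, hFV⟩ :=
    hy f hfP
  rw [← hR] at hnw hdrop
  -- the members of `q`
  have hqK : ∀ i < q.length, ∀ a ∈ q.getD i ∅, N ≤ a ∧ a < max K (N + 1) := by
    intro i hi a ha
    have h1 := hqN _ (Ye_getD_mem hi) a ha
    exact ⟨h1.1, lt_of_lt_of_le h1.2 (le_max_left _ _)⟩
  obtain ⟨len, hlen'⟩ : ∃ len, len = (S.p j).length := ⟨_, rfl⟩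
  rw [← hlen'] at hlen hold hnw hdrop
  have hql : p'.length = len + q.length := by
    have h1 := congrArg List.length hdrop
    rw [List.length_drop, List.length_map] at h1
    omega
  have hp'q : ∀ i, len ≤ i → i < p'.length → p'.getD i ∅ = RU R (q.getD (i - len) ∅) := by
    intro i h1 h2
    have h3 : (p'.drop len).getD (i - len) ∅ = (q.map (RU R)).getD (i - len) ∅ := by rw [hdrop]
    have h4 : i - len < q.length := by omega
    rw [List.getD_eq_getElem _ _ (by rw [List.length_drop]; omega), List.getElem_drop,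
      List.getD_eq_getElem _ _ (by rw [List.length_map]; exact h4), List.getElem_map] at h3
    rw [List.getD_eq_getElem _ _ h2, List.getD_eq_getElem _ _ h4, ← h3]
    congr 1
    omega
  -- the new list
  obtain ⟨q', hq'⟩ : ∃ q' : PL, q' = q.map (fun D => (D.biUnion (fun a => R a ∪ X a),
    S.L.length)) := ⟨_, rfl⟩
  have hq'l : q'.length = q.length := by rw [hq', List.length_map]
  have hq'pc : ∀ i < q.length, pc q' i = (q.getD i ∅).biUnion fun a => R a ∪ X a := by
    intro i hi
    unfold pc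
    rw [List.getD_eq_getElem _ _ (by rw [hq'l]; exact hi), List.getD_eq_getElem _ _ hi]
    simp only [hq', List.getElem_map]
  have hq'tg : ∀ i < q.length, tg q' i = S.L.length := by
    intro i hi
    unfold tg
    rw [List.getD_eq_getElem _ _ (by rw [hq'l]; exact hi)]
    simp only [hq', List.getElem_map]
  obtain ⟨pj, hpj⟩ : ∃ pj : PL, pj = mkl len (fun i => p'.getD i ∅) (tg (S.p j)) ++ q' :=
    ⟨_, rfl⟩
  have hmk : (mkl len (fun i => p'.getD i ∅) (tg (S.p j))).length = len := mkl_length _ _ _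
  have hpjl : pj.length = p'.length := by
    rw [hpj, List.length_append, hmk, hq'l, hql]
  have hpc1 : ∀ i < len, pc pj i = p'.getD i ∅ := by
    intro i hi
    rw [hpj, pc_append_left (by rw [hmk]; exact hi), mkl_pc hi]
  have htg1 : ∀ i < len, tg pj i = tg (S.p j) i := by
    intro i hi
    rw [hpj, tg_append_left (by rw [hmk]; exact hi), mkl_tg hi]
  have hpc2 : ∀ i, len ≤ i → i < p'.length →
      pc pj i = (q.getD (i - len) ∅).biUnion fun a => R a ∪ X a := by
    intro i h1 h2
    rw [hpj, pc_append_right (by rw [hmk]; exact h1), hmk, hq'pc _ (by omega)]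
  have htg2 : ∀ i, len ≤ i → i < p'.length → tg pj i = S.L.length := by
    intro i h1 h2
    rw [hpj, tg_append_right (by rw [hmk]; exact h1), hmk, hq'tg _ (by omega)]
  -- the additional sets
  obtain ⟨Y, hY⟩ : ∃ Y : ℕ → Finset ℕ, Y = fun i => if i < len then ∅ else
    (q.getD (i - len) ∅).biUnion X := ⟨_, rfl⟩
  have hY1 : ∀ i < len, Y i = ∅ := fun i hi => by
    rw [hY]
    exact if_pos hi
  have hY2 : ∀ i, len ≤ i → Y i = (q.getD (i - len) ∅).biUnion X := fun i hi => by
    rw [hY]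
    exact if_neg (not_lt.2 hi)
  have hpcY : ∀ i < p'.length, (sets pj).getD i ∅ = p'.getD i ∅ ∪ Y i := by
    intro i hi
    rw [sets_getD]
    rcases lt_or_ge i len with h | h
    · rw [hpc1 i h, hY1 i h, Finset.union_empty]
    · rw [hpc2 i h hi, hY2 i h, hp'q i h hi]
      unfold RU
      ext m
      simp only [Finset.mem_biUnion, Finset.mem_union]
      constructor
      · rintro ⟨a, ha, h1 | h1⟩
        · exact Or.inl ⟨a, ha, h1⟩
        · exact Or.inr ⟨a, ha, h1⟩
      · rintro (⟨a, ha, h1⟩ | ⟨a, ha, h1⟩)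
        · exact ⟨a, ha, Or.inl h1⟩
        · exact ⟨a, ha, Or.inr h1⟩
  have hYub : ∀ i < p'.length, UB R B' (Y i) := by
    intro i hi
    rcases lt_or_ge i len with h | h
    · rw [hY1 i h]
      exact UB.empty _ _
    · rw [hY2 i h]
      refine UB.biUnion fun a ha => ?_
      have h1 := hqK (i - len) (by omega) a ha
      exact (hX1 a h1.1 h1.2).1
  have hYlt : ∀ i < p'.length, ∀ m ∈ Y i, m < M' := by
    intro i hi m hm
    rcases lt_or_ge i len with h | h
    · rw [hY1 i h] at hm
      exact absurd hm (Finset.notMem_empty m)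
    · rw [hY2 i h] at hm
      obtain ⟨a, ha, hm'⟩ := Finset.mem_biUnion.1 hm
      have h1 := hqK (i - len) (by omega) a ha
      exact (hX1 a h1.1 h1.2).2 m hm'
  have hYd : ∀ i < p'.length, ∀ i' < p'.length, i ≠ i' → Disjoint (Y i) (Y i') := by
    intro i hi i' hi' hne
    rcases lt_or_ge i len with h | h
    · rw [hY1 i h]
      exact Finset.disjoint_empty_left _
    rcases lt_or_ge i' len with h' | h'
    · rw [hY1 i' h']
      exact Finset.disjoint_empty_right _
    rw [hY2 i h, hY2 i' h', Finset.disjoint_left]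
    intro m hm hm'
    obtain ⟨a, ha, hm1⟩ := Finset.mem_biUnion.1 hm
    obtain ⟨b, hb, hm2⟩ := Finset.mem_biUnion.1 hm'
    have h1 := hqK (i - len) (by omega) a ha
    have h2 := hqK (i' - len) (by omega) b hb
    have h3 : a ≠ b := by
      rintro rfl
      exact Finset.disjoint_left.1 (Ye_disj hq (i := i - len) (k := i' - len) (by omega)
        (by omega) (by omega)) ha hb
    exact Finset.disjoint_left.1 (hX2 a b h1.1 h1.2 h2.1 h2.2 h3) hm1 hm2
  have hpB' : ∀ x ∈ p', ∀ m ∈ x, m < B' := fun x hx m hm => (hpB x hx m hm).trans_le (by omega)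
  have hsl : (sets pj).length = p'.length := by rw [sets_length, hpjl]
  have hFam : Fam (sets pj) := fam_fill hF' hsl hpB' Y hpcY (fun i hi => (hYub i hi).2) hYd
  have hwd : ∀ m < B', wd (sets pj) m = wd p' m := fun m hm =>
    wd_agree (le_of_eq hsl.symm) (fun i hi => ⟨Y i, (hYub i hi).2, hpcY i hi⟩)
      (fun i hi h => by omega) hm
  -- the new condition
  obtain ⟨M2, hM2⟩ : ∃ M2, M2 = S.M + 1 + M' + B' := ⟨_, rfl⟩
  let S' : St l := ⟨S.L, M2, M2, Function.update S.p j pj⟩
  have hSj : S'.p j = pj := Function.update_self _ _ _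
  have hSne : ∀ j', j' ≠ j → S'.p j' = S.p j' := fun j' h => Function.update_of_ne h _ _
  have hE : Ext F S S' := by
    refine ⟨?_, ⟨[], rfl⟩, fun j' => ?_⟩
    · show S.M < M2
      omega
    · by_cases hjj : j' = j
      · subst hjj
        rw [hSj]
        refine ⟨⟨hFam, ?_, fun i hi => ?_, fun i hi h => ?_⟩, fun i hi => ?_, fun i hi h => ?_⟩
        · rw [hsl, ← hlen']
          exact hlen
        · obtain ⟨Z, hZ, hZ'⟩ := hold i (by rw [hlen']; exact hi)
          refine ⟨Z, hZ, ?_⟩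
          rw [sets_getD, hpc1 i (by rw [hlen']; exact hi), hZ']
        · rw [hsl] at hi
          rw [hpcY i hi]
          have h1 := hnw i hi (by rw [hlen']; exact h)
          have h2 := (hYub i hi).mono (show S.M ≤ B' by omega)
          rw [← hR]
          exact h1.union h2
        · exact htg1 i (by rw [hlen']; exact hi)
        · rw [hpjl] at hi
          rw [htg2 i (by rw [hlen']; exact h) hi]
      · rw [hSne j' hjj]
        exact Ye_refl hS j'
  refine ⟨S', inv_ext hBP hS hE ?_ ?_ ?_ ?_, hE, j, hj, n, v, ?_, hv, ?_⟩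
  · intro i hi m hm
    have h1 : Blk (Rv F S'.L S'.L.length) := (rv_tow F S'.L).blk _
    exact le_trans hi (h1.le i m hm)
  · intro j' i hi m hm
    show m < M2
    by_cases hjj : j' = j
    · subst hjj
      rw [hSj] at hi hm
      rw [hpjl] at hi
      rw [← sets_getD, hpcY i hi] at hm
      rcases Finset.mem_union.1 hm with h1 | h1
      · have h2 := hpB' _ (Ye_getD_mem hi) m h1
        omega
      · have h2 := hYlt i hi m h1
        omega
    · rw [hSne j' hjj] at hi hm
      have h2 := (hS.hb j' i hi m hm).2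
      omega
  · intro j' i hi h
    by_cases hjj : j' = j
    · subst hjj
      rw [hSj] at hi ⊢
      rw [hpjl] at hi
      exact htg2 i (by rw [hlen']; exact h) hi
    · rw [hSne j' hjj] at hi
      omega
  · intro j' hj' I hI h
    by_cases hjj : j' = j
    · subst hjj
      rw [hSj] at h ⊢
      rw [hpjl, ← hlen'] at h
      rw [← hR]
      show U R j' (YY pj I) M2
      have hun := Ye_isUn hq hI (n := len) (fun i hi => by
        have := h i hi
        rw [hql] at this
        exact this)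
      have hfV := hmono _ hun
      have hUV := hfU _ hun.1 (fun a ha => by
        obtain ⟨i, hi, ha'⟩ := Finset.mem_biUnion.1 ha
        exact hqK (i - len) (by have := h i hi; omega) a ha')
      rw [hfV] at hUV
      have hYY : YY pj I = (I.biUnion fun i => q.getD (i - len) ∅).biUnion
          fun a => R a ∪ X a := by
        unfold YY
        rw [Finset.biUnion_biUnion]
        exact Finset.biUnion_congr rfl fun i hi => hpc2 i (h i hi).1 (h i hi).2
      rw [hYY]
      have h1 := hBR.umo j' _ M' ∅ M2 (by omega)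
        (fun m hm => absurd hm (Finset.notMem_empty m)) hUV
      rwa [Finset.union_empty] at h1
    · exfalso
      obtain ⟨i, hi⟩ := hI
      have h1 := h i hi
      rw [hSne j' hjj] at h1
      omega
  · show n ≤ M2
    omega
  · rw [hSj]
    exact hFV.congr fun m hm => (hwd m (by omega)).symm

end Pool.Agent.DB
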