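import Pool.Agent.H.MP_b2838e_lc.B.Hs
import Pool.Agent.H.MP_b2838e_lc.B.Ps
import Pool.Agent.H.MP_b2838e_lc.B.Ye
import Pool.Agent.H.MP_b2838e_lc.B.Nd
import Pool.Agent.H.MP_b2838e_lc.B.Tr

/-!
# Module Sq: the steps
-/

namespace Pool.Agent.DB

open Pool.Agent.DR

/-- The requirement for the functionals `e` is satisfied by the condition. -/
def Don (F : ℕ → List ℕ → ℕ → Option ℕ) {l : ℕ} (P : Finset (Fin l)) (g : ℕ → ℕ) (S : St l)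
    (e : Fin l → ℕ) (t0 : ℕ) : Prop :=
  ∃ j ∈ P, (∃ t ≥ t0, ∃ n v, n ≤ S.M ∧ v < g t ∧ FV (F (e j)) (wd (sets (S.p j))) t n v) ∨
    ∃ t, ∀ p', UExt (Rv F S.L) S.L.length S.M (S.p j) p' → ∀ n, F (e j) (pre (wd p') n) t = none

variable {F : ℕ → List ℕ → ℕ → Option ℕ} {l : ℕ} {c : (ℕ → ℕ) → Fin l}
  {G : (ℕ → Finset ℕ) → ℕ → Finset ℕ → ℕ → Prop}
  {U : (ℕ → Finset ℕ) → Fin l → Finset ℕ → ℕ → Prop}
  {P : Finset (Fin l)} {L0 : List (Par × ℕ)}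

/-- A condition with the given persistent labels. -/
theorem step_pers (hBP : ∀ R, Blk R → (∀ i, ∀ n ∈ R i, 0 < n) → BP c R (G R) (U R))
    (hP : ∀ L', ∃ L'', Pers F U (L'' ++ (L' ++ L0)) = P) {S : St l} (hS : Inv F U P L0 S) :
    ∃ S' : St l, Inv F U P L0 S' ∧ Ext F S S' ∧ Pers F U S'.L = P := by
  obtain ⟨L', hL'⟩ := hS.hL
  obtain ⟨L'', hL''⟩ := hP L'
  obtain ⟨S', h1, h2, h3, -⟩ := ext_hist hBP hS L''
  exact ⟨S', h1, h2, by rw [h3, hL', hL'']⟩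

/-- A new piece. -/
theorem step_piece (hBP : ∀ R, Blk R → (∀ i, ∀ n ∈ R i, 0 < n) → BP c R (G R) (U R))
    (hP : ∀ L', ∃ L'', Pers F U (L'' ++ (L' ++ L0)) = P) {S : St l} (hS : Inv F U P L0 S)
    {j : Fin l} (hj : j ∈ P) :
    ∃ S' : St l, Inv F U P L0 S' ∧ Ext F S S' ∧ (S.p j).length < (S'.p j).length := by
  obtain ⟨S1, h1, h2, h3⟩ := step_pers hBP hP hS
  rw [← h3] at hj
  obtain ⟨A, m, hA, hAR, hAm, hU⟩ := mem_pers.1 hj S1.M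
  obtain ⟨S', h4, h5, h6⟩ := ext_new hBP h1 hA hAR hAm hU
  refine ⟨S', h4, h2.trans hS h5, lt_of_le_of_lt ?_ h6⟩
  have := (h2.2.2 j).1.2.1
  rwa [sets_length] at this

/-- A requirement for the functionals. -/
theorem step_req (hBP : ∀ R, Blk R → (∀ i, ∀ n ∈ R i, 0 < n) → BP c R (G R) (U R)) {g : ℕ → ℕ}
    (hg : ∀ (a : Par) (L : List (Par × ℕ)), ∃ u, ∀ t ≥ u, gam F a t (Rv F L) L.length < g t)
    (hP : ∀ L', ∃ L'', Pers F U (L'' ++ (L' ++ L0)) = P) {S : St l} (hS : Inv F U P L0 S)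
    (e : Fin l → ℕ) (t0 : ℕ) :
    ∃ S' : St l, Inv F U P L0 S' ∧ Ext F S S' ∧ Don F P g S' e t0 := by
  obtain ⟨S1, h1, h2, h3⟩ := step_pers hBP hP hS
  obtain ⟨M0, hM0⟩ := exists_M0 F U S1.L
  rw [h3] at hM0
  obtain ⟨a, ha⟩ : ∃ a : Par, a = ⟨l, P, S1.p, e, M0, S1.M⟩ := ⟨_, rfl⟩
  obtain ⟨u, hu⟩ := hg a S1.L
  obtain ⟨t, ht0, htu⟩ : ∃ t, t0 ≤ t ∧ u ≤ t := ⟨max u t0, le_max_right _ _, le_max_left _ _⟩
  rcases dich F P S1.p e M0 S1.M t (Rv F S1.L) S1.L.length with ⟨K, B, hy⟩ | hn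
  · have hyA : YesA F a t (Rv F S1.L) S1.L.length K B := by
      rw [ha]
      exact hy
    obtain ⟨K', hyB⟩ := gam_spec F hyA
    have hyC : Yes F P S1.p e M0 S1.M t (Rv F S1.L) S1.L.length K'
        (gam F a t (Rv F S1.L) S1.L.length) := by
      have := hyB
      unfold YesA at this
      subst ha
      exact this
    obtain ⟨S', h4, h5, j, hj, n, v, hn, hv, hfv⟩ := ext_yes hBP h1 hM0 le_rfl hyC
    exact ⟨S', h4, h2.trans hS h5, j, hj,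
      Or.inl ⟨t, ht0, n, v, hn, lt_of_le_of_lt hv (hu t htu), hfv⟩⟩
  · have hnA : ∃ R', NoA F (a, t).1 (a, t).2 (Rv F S1.L) S1.L.length R' := by
      obtain ⟨R', hR'⟩ := hn
      refine ⟨R', ?_⟩
      rw [ha]
      exact hR'
    have hres := rv_cons F hnA
    have hres' : No F P S1.p e M0 S1.M t (Rv F S1.L) S1.L.length
        (Rv F ((a, t) :: S1.L) (S1.L.length + 1)) := by
      have := hres
      unfold NoA at this
      subst ha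
      exact this
    obtain ⟨S', h4, h5, h6, h7⟩ := ext_hist hBP h1 [(a, t)]
    obtain ⟨j, hj, hdiv⟩ := no_div hres' (rv_tow F S1.L) (rv_tow F ((a, t) :: S1.L))
      (fun r hr => rv_cons_low F (a, t) S1.L hr) rfl h1.hh h5.1.le
    refine ⟨S', h4, h2.trans hS h5, j, hj, Or.inr ⟨t, ?_⟩⟩
    rw [h6, h7]
    exact hdiv

end Pool.Agent.DB
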