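import Pool.Agent.H.MP_b2838e_lc.B.Fm

/-!
# Module Sv: the conditions
-/

namespace Pool.Agent.DB

open Pool.Agent.DR

/-- Conditions: the history of the reservoirs, the first index, the length and the pieces. -/
structure St (l : ℕ) where
  L : List (Par × ℕ)
  N : ℕ
  M : ℕ
  p : Fin l → PL

/-- The properties of the conditions. -/
structure Inv (F : ℕ → List ℕ → ℕ → Option ℕ) {l : ℕ}
    (U : (ℕ → Finset ℕ) → Fin l → Finset ℕ → ℕ → Prop) (P : Finset (Fin l)) (L0 : List (Par × ℕ))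
    (S : St l) : Prop where
  hL : ∃ L', S.L = L' ++ L0
  hN : ∀ i ≥ S.N, ∀ n ∈ Rv F S.L S.L.length i, S.M ≤ n
  hF : ∀ j, Fam (sets (S.p j))
  hb : ∀ j, ∀ i < (S.p j).length, ∀ n ∈ pc (S.p j) i, 0 < n ∧ n < S.M
  hm : ∀ j, ∀ i i', i ≤ i' → i' < (S.p j).length → tg (S.p j) i ≤ tg (S.p j) i'
  hh : ∀ j, ∀ i < (S.p j).length, tg (S.p j) i ≤ S.L.length
  hu : ∀ j, ∀ i < (S.p j).length, UB (Rv F S.L (tg (S.p j) i)) 0 (pc (S.p j) i)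
  hc : ∀ j ∈ P, ∀ I : Finset ℕ, (∀ i ∈ I, i < (S.p j).length) → ∀ i0 ∈ I, (∀ i ∈ I, i0 ≤ i) →
    U (Rv F S.L (tg (S.p j) i0)) j (YY (S.p j) I) S.M

/-- Extensions of conditions. -/
def Ext (F : ℕ → List ℕ → ℕ → Option ℕ) {l : ℕ} (S S' : St l) : Prop :=
  S.M < S'.M ∧ (∃ L1, S'.L = L1 ++ S.L) ∧
    ∀ j, TExt (Rv F S.L) S.L.length S.M (S.p j) (S'.p j)

end Pool.Agent.DB
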