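import Pool.Agent.H.MP_b2838e_lc.B.Bd
import Pool.Agent.H.MP_b2838e_lc.B.Dch

/-!
# Module Tw: towers of reservoirs, extensions of lists of pieces, the tree
-/

namespace Pool.Agent.DB

open Pool.Agent.DR

/-- Lists of pieces with levels. -/
abbrev PL : Type := List (Finset ℕ × ℕ)

/-- The piece with the number `i`. -/
def pc (p : PL) (i : ℕ) : Finset ℕ := (p.getD i (∅, 0)).1

/-- The level of the piece with the number `i`. -/
def tg (p : PL) (i : ℕ) : ℕ := (p.getD i (∅, 0)).2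

/-- The sets of the list. -/
def sets (p : PL) : List (Finset ℕ) := p.map Prod.fst

/-- The union of some of the pieces. -/
def YY (p : PL) (I : Finset ℕ) : Finset ℕ := I.biUnion (pc p)

/-- Towers of reservoirs. -/
structure Tow (Q : ℕ → ℕ → Finset ℕ) : Prop where
  blk : ∀ r, Blk (Q r)
  pos : ∀ r i, ∀ n ∈ Q r i, 0 < n
  sub : ∀ r r', r ≤ r' → ∃ E, Blk E ∧ Q r' = fun i => RU (Q r) (E i)

/-- The list `p'` extends the list `p` with blocks above `M`: the pieces of `p` get additional blocks of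
their level, the new pieces are unions of blocks of the level `h`. -/
def UExt (Q : ℕ → ℕ → Finset ℕ) (h M : ℕ) (p : PL) (p' : List (Finset ℕ)) : Prop :=
  Fam p' ∧ p.length ≤ p'.length ∧
    (∀ i < p.length, ∃ X, UB (Q (tg p i)) M X ∧ p'.getD i ∅ = pc p i ∪ X) ∧
    ∀ i < p'.length, p.length ≤ i → UB (Q h) M (p'.getD i ∅)

/-- The same for lists with levels. -/
def TExt (Q : ℕ → ℕ → Finset ℕ) (h M : ℕ) (p p' : PL) : Prop :=
  UExt Q h M p (sets p') ∧ (∀ i < p.length, tg p' i = tg p i) ∧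
    ∀ i < p'.length, p.length ≤ i → h ≤ tg p' i

/-- There is an extension with the new pieces `q` which makes the functional converge; all numbers are
bounded by `B`. -/
def W (F : ℕ → List ℕ → ℕ → Option ℕ) (Q : ℕ → ℕ → Finset ℕ) (h M t : ℕ) (p : PL) (e : ℕ)
    (q : List (Finset ℕ)) (B : ℕ) : Prop :=
  ∃ p', UExt Q h M p p' ∧ p'.drop p.length = q.map (RU (Q h)) ∧ (∀ x ∈ p', ∀ n ∈ x, n < B) ∧
    ∃ n v, n ≤ B ∧ v ≤ B ∧ FV (F e) (wd p') t n v

theorem W.mono {F : ℕ → List ℕ → ℕ → Option ℕ} {Q : ℕ → ℕ → Finset ℕ} {h M t : ℕ} {p : PL} {e : ℕ}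
    {q : List (Finset ℕ)} {B B' : ℕ} (hB : B ≤ B') (hW : W F Q h M t p e q B) :
    W F Q h M t p e q B' := by
  obtain ⟨p', h1, h2, h3, n, v, h4, h5, h6⟩ := hW
  exact ⟨p', h1, h2, fun x hx n hn => (h3 x hx n hn).trans_le hB, n, v, h4.trans hB, h5.trans hB, h6⟩

/-- The answer yes. -/
def Yes (F : ℕ → List ℕ → ℕ → Option ℕ) {l : ℕ} (P : Finset (Fin l)) (p : Fin l → PL)
    (e : Fin l → ℕ) (N M t : ℕ) (Q : ℕ → ℕ → Finset ℕ) (h K B : ℕ) : Prop :=
  ∀ f : Finset ℕ → Fin l, (∀ D : Finset ℕ, D.Nonempty → (∀ a ∈ D, N ≤ a) → f D ∈ P) →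
    ∃ j ∈ P, ∃ q, Fam q ∧ (∀ D ∈ q, ∀ a ∈ D, N ≤ a ∧ a < K) ∧ Mono f j q ∧
      W F Q h M t (p j) (e j) q B

/-- The answer no. -/
def No (F : ℕ → List ℕ → ℕ → Option ℕ) {l : ℕ} (P : Finset (Fin l)) (p : Fin l → PL)
    (e : Fin l → ℕ) (N M t : ℕ) (Q : ℕ → ℕ → Finset ℕ) (h : ℕ) (R' : ℕ → Finset ℕ) : Prop :=
  ∃ E, Blk E ∧ (∀ i, ∀ a ∈ E i, N ≤ a) ∧ (R' = fun i => RU (Q h) (E i)) ∧
    ∃ j ∈ P, ∀ q, Fam q → ∀ B, ¬ W F Q h M t (p j) (e j) (q.map (RU E)) B

theorem dich (F : ℕ → List ℕ → ℕ → Option ℕ) {l : ℕ} (P : Finset (Fin l)) (p : Fin l → PL)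
    (e : Fin l → ℕ) (N M t : ℕ) (Q : ℕ → ℕ → Finset ℕ) (h : ℕ) :
    (∃ K B, Yes F P p e N M t Q h K B) ∨ ∃ R', No F P p e N M t Q h R' := by
  rcases dchA P N (fun j q B => W F Q h M t (p j) (e j) q B)
    (fun j q B B' hB hw => hw.mono hB) with ⟨K, B, h1⟩ | ⟨E, h1, h2, h3⟩
  · exact Or.inl ⟨K, B, h1⟩
  · exact Or.inr ⟨_, E, h1, h2, rfl, h3⟩

/-- The data of a question without the argument `t`. -/
abbrev Par : Type :=
  Σ l : ℕ, Finset (Fin l) × (Fin l → PL) × (Fin l → ℕ) × ℕ × ℕ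

/-- The answer is yes. -/
def YesA (F : ℕ → List ℕ → ℕ → Option ℕ) (a : Par) (t : ℕ) (Q : ℕ → ℕ → Finset ℕ) (h K B : ℕ) :
    Prop :=
  Yes F a.2.1 a.2.2.1 a.2.2.2.1 a.2.2.2.2.1 a.2.2.2.2.2 t Q h K B

/-- The answer is no. -/
def NoA (F : ℕ → List ℕ → ℕ → Option ℕ) (a : Par) (t : ℕ) (Q : ℕ → ℕ → Finset ℕ) (h : ℕ)
    (R' : ℕ → Finset ℕ) : Prop :=
  No F a.2.1 a.2.2.1 a.2.2.2.1 a.2.2.2.2.1 a.2.2.2.2.2 t Q h R'

open Classical in
/-- The next reservoir. -/
noncomputable def nxt (F : ℕ → List ℕ → ℕ → Option ℕ) (a : Par × ℕ) (Q : ℕ → ℕ → Finset ℕ) (h : ℕ) :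
    ℕ → Finset ℕ :=
  if h1 : ∃ R', NoA F a.1 a.2 Q h R' then h1.choose else Q h

open Classical in
/-- The bound for the value. -/
noncomputable def gam (F : ℕ → List ℕ → ℕ → Option ℕ) (a : Par) (t : ℕ) (Q : ℕ → ℕ → Finset ℕ)
    (h : ℕ) : ℕ :=
  if h1 : ∃ B K, YesA F a t Q h K B then h1.choose else 0

/-- The towers of the tree. -/
noncomputable def Rv (F : ℕ → List ℕ → ℕ → Option ℕ) : List (Par × ℕ) → ℕ → ℕ → Finset ℕ
  | [] => fun _ i => {i + 1}
  | a :: L => fun r => if r ≤ L.length then Rv F L r else nxt F a (Rv F L) L.length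

theorem rv_cons_low (F : ℕ → List ℕ → ℕ → Option ℕ) (a : Par × ℕ) (L : List (Par × ℕ)) {r : ℕ}
    (hr : r ≤ L.length) : Rv F (a :: L) r = Rv F L r := by
  simp only [Rv, if_pos hr]

theorem rv_cons_high (F : ℕ → List ℕ → ℕ → Option ℕ) (a : Par × ℕ) (L : List (Par × ℕ)) {r : ℕ}
    (hr : L.length < r) : Rv F (a :: L) r = nxt F a (Rv F L) L.length := by
  simp only [Rv, if_neg (not_le.2 hr)]

theorem rv_low (F : ℕ → List ℕ → ℕ → Option ℕ) (L' L : List (Par × ℕ)) {r : ℕ}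
    (hr : r ≤ L.length) : Rv F (L' ++ L) r = Rv F L r := by
  induction L' with
  | nil => rfl
  | cons a L' ih =>
    rw [List.cons_append, rv_cons_low F a (L' ++ L) (by rw [List.length_append]; omega), ih]

theorem nxt_sub (F : ℕ → List ℕ → ℕ → Option ℕ) (a : Par × ℕ) (Q : ℕ → ℕ → Finset ℕ) (h : ℕ) :
    ∃ E, Blk E ∧ nxt F a Q h = fun i => RU (Q h) (E i) := by
  unfold nxt
  split_ifs with h1
  · obtain ⟨E, hE, -, h2, -⟩ := h1.choose_spec
    exact ⟨E, hE, h2⟩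
  · refine ⟨fun i => {i}, ⟨fun i => ⟨i, Finset.mem_singleton_self i⟩, fun i a ha b hb => ?_⟩, ?_⟩
    · rw [Finset.mem_singleton] at ha hb
      omega
    · funext i
      unfold RU
      rw [Finset.singleton_biUnion]

theorem blk_id : Blk (fun i => ({i} : Finset ℕ)) :=
  ⟨fun i => ⟨i, Finset.mem_singleton_self i⟩, fun i a ha b hb => by
    rw [Finset.mem_singleton] at ha hb
    omega⟩

theorem RU_id (R : ℕ → Finset ℕ) : R = fun i => RU R ((fun i => ({i} : Finset ℕ)) i) := by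
  funext i
  unfold RU
  rw [Finset.singleton_biUnion]

theorem rv_tow (F : ℕ → List ℕ → ℕ → Option ℕ) (L : List (Par × ℕ)) : Tow (Rv F L) := by
  induction L with
  | nil =>
    refine ⟨fun r => ⟨fun i => ⟨i + 1, Finset.mem_singleton_self _⟩, fun i a ha b hb => ?_⟩,
      fun r i n hn => ?_, fun r r' _ => ⟨_, blk_id, RU_id _⟩⟩
    · rw [Rv, Finset.mem_singleton] at ha hb
      omega
    · rw [Rv, Finset.mem_singleton] at hn
      omega
  | cons a L ih =>
    obtain ⟨E, hE, hn⟩ := nxt_sub F a (Rv F L) L.length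
    have hlow : ∀ r ≤ L.length, Rv F (a :: L) r = Rv F L r := fun r hr => rv_cons_low F a L hr
    have hhigh : ∀ r, L.length < r → Rv F (a :: L) r = fun i => RU (Rv F L L.length) (E i) :=
      fun r hr => by rw [rv_cons_high F a L hr, hn]
    refine ⟨fun r => ?_, fun r i n hni => ?_, fun r r' hrr => ?_⟩
    · rcases le_or_gt r L.length with hr | hr
      · rw [hlow r hr]
        exact ih.blk r
      · rw [hhigh r hr]
        exact (ih.blk _).comp hE
    · rcases le_or_gt r L.length with hr | hr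
      · rw [hlow r hr] at hni
        exact ih.pos r i n hni
      · rw [hhigh r hr] at hni
        obtain ⟨k, -, hk⟩ := mem_RU.1 hni
        exact ih.pos _ k n hk
    · rcases le_or_gt r' L.length with hr' | hr'
      · rw [hlow r' hr', hlow r (hrr.trans hr')]
        exact ih.sub r r' hrr
      · rcases le_or_gt r L.length with hr | hr
        · obtain ⟨E', hE', h1⟩ := ih.sub r L.length hr
          refine ⟨fun i => RU E' (E i), hE'.comp hE, ?_⟩
          rw [hhigh r' hr', hlow r hr, h1]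
          funext i
          exact RU_RU _ _ _
        · refine ⟨_, blk_id, ?_⟩
          rw [hhigh r' hr', hhigh r hr]
          exact RU_id _

theorem rv_cons (F : ℕ → List ℕ → ℕ → Option ℕ) {a : Par × ℕ} {L : List (Par × ℕ)}
    (h : ∃ R', NoA F a.1 a.2 (Rv F L) L.length R') :
    NoA F a.1 a.2 (Rv F L) L.length (Rv F (a :: L) (L.length + 1)) := by
  rw [rv_cons_high F a L (Nat.lt_succ_self _)]
  unfold nxt
  rw [dif_pos h]
  exact h.choose_spec

theorem gam_spec (F : ℕ → List ℕ → ℕ → Option ℕ) {a : Par} {t : ℕ} {Q : ℕ → ℕ → Finset ℕ}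
    {h K B : ℕ} (hy : YesA F a t Q h K B) : ∃ K, YesA F a t Q h K (gam F a t Q h) := by
  have h1 : ∃ B K, YesA F a t Q h K B := ⟨B, K, hy⟩
  unfold gam
  rw [dif_pos h1]
  exact h1.choose_spec

/-- The function `g` is larger than the bounds of all questions with code at most `t`. -/
theorem exists_g (F : ℕ → List ℕ → ℕ → Option ℕ) : ∃ g : ℕ → ℕ,
    ∀ (a : Par) (L : List (Par × ℕ)), ∃ u, ∀ t ≥ u, gam F a t (Rv F L) L.length < g t := by
  obtain ⟨en, hen⟩ := exists_surjective_nat (Par × List (Par × ℕ))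
  refine ⟨fun t => 1 + ∑ u ∈ Finset.range (t + 1),
    gam F (en u).1 t (Rv F (en u).2) (en u).2.length, fun a L => ?_⟩
  obtain ⟨u, hu⟩ := hen (a, L)
  refine ⟨u, fun t ht => ?_⟩
  have h1 : gam F (en u).1 t (Rv F (en u).2) (en u).2.length ≤
      ∑ u ∈ Finset.range (t + 1), gam F (en u).1 t (Rv F (en u).2) (en u).2.length :=
    Finset.single_le_sum (f := fun u => gam F (en u).1 t (Rv F (en u).2) (en u).2.length)
      (fun _ _ => Nat.zero_le _) (Finset.mem_range.2 (Nat.lt_succ_of_le ht))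
  rw [hu] at h1
  exact Nat.lt_one_add_iff.2 h1

/-! Small facts on unions of blocks -/

theorem UB.mono {R : ℕ → Finset ℕ} {M M' : ℕ} {X : Finset ℕ} (h : UB R M' X) (hM : M ≤ M') :
    UB R M X := ⟨h.1, fun n hn => hM.trans (h.2 n hn)⟩

theorem UB.empty (R : ℕ → Finset ℕ) (M : ℕ) : UB R M ∅ :=
  ⟨⟨∅, rfl⟩, fun n hn => absurd hn (Finset.notMem_empty n)⟩

theorem UB.union {R : ℕ → Finset ℕ} {M : ℕ} {X Y : Finset ℕ} (h : UB R M X) (h' : UB R M Y) :
    UB R M (X ∪ Y) := by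
  obtain ⟨⟨D, rfl⟩, h1⟩ := h
  obtain ⟨⟨D', rfl⟩, h2⟩ := h'
  refine ⟨⟨D ∪ D', ?_⟩, fun n hn => (Finset.mem_union.1 hn).elim (h1 n) (h2 n)⟩
  unfold RU
  rw [Finset.union_biUnion]

theorem UB.biUnion {R : ℕ → Finset ℕ} {M : ℕ} {I : Finset ℕ} {a : ℕ → Finset ℕ}
    (h : ∀ i ∈ I, UB R M (a i)) : UB R M (I.biUnion a) := by
  classical
  induction I using Finset.induction_on with
  | empty => rw [Finset.biUnion_empty]; exact UB.empty R M
  | insert i I _ ih =>
    rw [Finset.biUnion_insert]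
    exact (h i (Finset.mem_insert_self i I)).union (ih fun k hk => h k (Finset.mem_insert_of_mem hk))

theorem UB.of_sub {R E : ℕ → Finset ℕ} {M : ℕ} {X : Finset ℕ}
    (h : UB (fun i => RU R (E i)) M X) : UB R M X := by
  obtain ⟨⟨D, rfl⟩, h1⟩ := h
  exact ⟨⟨RU E D, RU_RU R E D⟩, h1⟩

theorem Tow.ub {Q : ℕ → ℕ → Finset ℕ} (hQ : Tow Q) {r r' M : ℕ} (hr : r ≤ r') {X : Finset ℕ}
    (h : UB (Q r') M X) : UB (Q r) M X := by
  obtain ⟨E, -, hE⟩ := hQ.sub r r' hr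
  rw [hE] at h
  exact h.of_sub

theorem sets_length (p : PL) : (sets p).length = p.length := by
  unfold sets
  rw [List.length_map]

theorem sets_getD (p : PL) (i : ℕ) : (sets p).getD i ∅ = pc p i := by
  unfold sets pc
  rcases lt_or_ge i p.length with h | h
  · rw [List.getD_eq_getElem _ _ (by rw [List.length_map]; exact h), List.getD_eq_getElem _ _ h,
      List.getElem_map]
  · rw [List.getD_eq_default _ _ (by rw [List.length_map]; exact h), List.getD_eq_default _ _ h]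

end Pool.Agent.DB
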